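import Mathlib

namespace Pool.Agent.Work.MP_8f100c_ag

open MvPolynomial

/-- scaling of the variables by a new variable -/
noncomputable def scl (σ : Type*) : MvPolynomial σ ℂ →ₐ[ℂ] Polynomial (MvPolynomial σ ℂ) :=
  aeval (fun i => Polynomial.C (X i) * Polynomial.X)

theorem scl_monomial {σ : Type*} (d : σ →₀ ℕ) (c : ℂ) :
    scl σ (monomial d c) = Polynomial.C (monomial d c) * Polynomial.X ^ d.degree := by
  rw [scl, aeval_monomial, Finsupp.prod]
  simp_rw [mul_pow, Finset.prod_mul_distrib]
  rw [Finset.prod_pow_eq_pow_sum]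
  have h1 : (monomial d c : MvPolynomial σ ℂ) = C c * ∏ i ∈ d.support, X i ^ (d i) := by
    rw [monomial_eq, Finsupp.prod]
  rw [h1]
  simp only [map_mul, map_prod, map_pow]
  rw [← mul_assoc]
  rfl

theorem scl_coeff {σ : Type*} (p : MvPolynomial σ ℂ) (j : ℕ) :
    (scl σ p).coeff j = homogeneousComponent j p := by
  induction p using MvPolynomial.induction_on' with
  | monomial d c =>
    rw [scl_monomial, Polynomial.coeff_C_mul, Polynomial.coeff_X_pow]
    by_cases h : j = d.degree
    · rw [if_pos h, mul_one, homogeneousComponent_eq_self]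
      rw [h]
      exact isHomogeneous_monomial c rfl
    · rw [if_neg h, mul_zero]
      symm
      rw [homogeneousComponent_of_mem (m := j) (n := d.degree) (isHomogeneous_monomial c rfl), if_neg h]
  | add p q hp hq => rw [map_add, Polynomial.coeff_add, hp, hq, map_add]

theorem scl_of_isHomogeneous {σ : Type*} {p : MvPolynomial σ ℂ} {k : ℕ} (h : p.IsHomogeneous k) :
    scl σ p = Polynomial.C p * Polynomial.X ^ k := by
  ext1 j
  rw [scl_coeff, Polynomial.coeff_C_mul, Polynomial.coeff_X_pow, homogeneousComponent_of_mem h]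
  split_ifs <;> simp

theorem scl_ne {σ : Type*} {p : MvPolynomial σ ℂ} (h : p ≠ 0) : scl σ p ≠ 0 := by
  intro h0
  apply h
  rw [← sum_homogeneousComponent p]
  apply Finset.sum_eq_zero
  intro j _
  rw [← scl_coeff, h0, Polynomial.coeff_zero]

theorem isHomogeneous_of_scl {σ : Type*} {p : MvPolynomial σ ℂ} {a : ℕ}
    (h : ∀ j, j ≠ a → (scl σ p).coeff j = 0) : p.IsHomogeneous a := by
  have h1 : p = homogeneousComponent a p := by
    conv_lhs => rw [← sum_homogeneousComponent p]
    by_cases ha : a < p.totalDegree + 1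
    · rw [Finset.sum_eq_single a]
      · intro b _ hb
        rw [← scl_coeff, h b hb]
      · intro h'
        exact absurd (Finset.mem_range.mpr ha) h'
    · rw [homogeneousComponent_eq_zero a p (by omega)]
      apply Finset.sum_eq_zero
      intro b hb
      rw [← scl_coeff, h b]
      have := Finset.mem_range.mp hb
      omega
  rw [h1]
  exact homogeneousComponent_isHomogeneous a p

theorem isHomogeneous_of_mul {σ : Type*} {p q : MvPolynomial σ ℂ} {k : ℕ}
    (h : (p * q).IsHomogeneous k) (h0 : p * q ≠ 0) :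
    ∃ a b, a + b = k ∧ p.IsHomogeneous a ∧ q.IsHomogeneous b := by
  have hp : p ≠ 0 := left_ne_zero_of_mul h0
  have hq : q ≠ 0 := right_ne_zero_of_mul h0
  have h1 := scl_of_isHomogeneous h
  rw [map_mul] at h1
  have hd := congrArg Polynomial.natDegree h1
  have ht := congrArg Polynomial.natTrailingDegree h1
  rw [Polynomial.natDegree_mul (scl_ne hp) (scl_ne hq), Polynomial.natDegree_C_mul_X_pow _ _ h0] at hd
  rw [Polynomial.natTrailingDegree_mul (scl_ne hp) (scl_ne hq), Polynomial.C_mul_X_pow_eq_monomial,
    Polynomial.natTrailingDegree_monomial h0] at ht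
  have h2 := Polynomial.natTrailingDegree_le_natDegree (scl σ p)
  have h3 := Polynomial.natTrailingDegree_le_natDegree (scl σ q)
  refine ⟨(scl σ p).natDegree, (scl σ q).natDegree, hd, ?_, ?_⟩
  · apply isHomogeneous_of_scl
    intro j hj
    rcases Nat.lt_or_ge j (scl σ p).natDegree with h4 | h4
    · exact Polynomial.coeff_eq_zero_of_lt_natTrailingDegree (by omega)
    · exact Polynomial.coeff_eq_zero_of_natDegree_lt (by omega)
  · apply isHomogeneous_of_scl
    intro j hj
    rcases Nat.lt_or_ge j (scl σ q).natDegree with h4 | h4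
    · exact Polynomial.coeff_eq_zero_of_lt_natTrailingDegree (by omega)
    · exact Polynomial.coeff_eq_zero_of_natDegree_lt (by omega)

/-- a divisor argument in a unique factorization domain -/
theorem dvd_of_forall_dvd_mul {P ι : Type*} [CommRing P] [IsDomain P] [UniqueFactorizationMonoid P]
    (w : ι → P) (hw : ∀ p : P, Prime p → ∃ j, ¬ p ∣ w j) (a : P) (ha : a ≠ 0) :
    ∀ b : P, (∀ j, a ∣ w j * b) → a ∣ b := by
  induction a using UniqueFactorizationMonoid.induction_on_prime with
  | h₁ => exact absurd rfl ha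
  | h₂ x hx => intro b _; exact hx.dvd
  | h₃ a' p ha' hp ih =>
    intro b hb
    obtain ⟨j, hj⟩ := hw p hp
    have h1 : p ∣ w j * b := (Dvd.intro _ rfl).trans (hb j)
    obtain ⟨b', hb'⟩ := (hp.dvd_or_dvd h1).resolve_left hj
    subst hb'
    apply mul_dvd_mul_left
    apply ih ha'
    intro j
    have h2 := hb j
    rw [show w j * (p * b') = p * (w j * b') by ring] at h2
    exact (mul_dvd_mul_iff_left hp.ne_zero).mp h2

end Pool.Agent.Work.MP_8f100c_ag
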