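import Mathlib

namespace Pool.Agent.Work.MP_8f100c_ag

open Matrix

section
variable {A : Type*} [CommRing A] {e : ℕ}

/-- vector of signed maximal minors -/
noncomputable def mv (M : Matrix (Fin e) (Fin (e + 1)) A) (i : Fin (e + 1)) : A :=
  (-1) ^ (i : ℕ) * (M.submatrix id i.succAbove).det

theorem mv_ker (M : Matrix (Fin e) (Fin (e + 1)) A) (k : Fin e) : ∑ i, M k i * mv M i = 0 := by
  have h : (Matrix.of (Fin.cons (M k) M : Fin (e + 1) → Fin (e + 1) → A)).det = 0 := by
    apply Matrix.det_zero_of_row_eq (i := 0) (j := k.succ) (Fin.succ_ne_zero k).symm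
    ext j
    rfl
  rw [Matrix.det_succ_row_zero] at h
  rw [← h]
  apply Finset.sum_congr rfl
  intro j _
  rw [mv]
  have : (Matrix.of (Fin.cons (M k) M : Fin (e + 1) → Fin (e + 1) → A)).submatrix Fin.succ j.succAbove
      = M.submatrix id j.succAbove := by
    ext a b
    rfl
  rw [this]
  change M k j * ((-1) ^ (j : ℕ) * (M.submatrix id j.succAbove).det)
    = (-1) ^ (j : ℕ) * M k j * (M.submatrix id j.succAbove).det
  ring

theorem mv_map {A' : Type*} [CommRing A'] (φ : A →+* A') (M : Matrix (Fin e) (Fin (e + 1)) A)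
    (i : Fin (e + 1)) : mv (M.map φ) i = φ (mv M i) := by
  rw [mv, mv, map_mul, map_pow, map_neg, map_one, RingHom.map_det]
  rfl

theorem mv_mul (U : Matrix (Fin e) (Fin e) A) (M : Matrix (Fin e) (Fin (e + 1)) A)
    (i : Fin (e + 1)) : mv (U * M) i = U.det * mv M i := by
  have : (U * M).submatrix id i.succAbove = U * (M.submatrix id i.succAbove) := by
    ext a b
    simp [Matrix.mul_apply]
  rw [mv, mv, this, Matrix.det_mul]
  ring

theorem mv_scale (M M' : Matrix (Fin e) (Fin (e + 1)) A) (x : Fin (e + 1) → A) (y : Fin e → A)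
    (h : ∀ k i, x i * M k i = y k * M' k i) (i : Fin (e + 1)) :
    (∏ j, x j) * mv M i = x i * ((∏ k, y k) * mv M' i) := by
  have h1 := Matrix.det_mul_row (fun j => x (i.succAbove j)) (M.submatrix id i.succAbove)
  have h2 := Matrix.det_mul_column y (M'.submatrix id i.succAbove)
  have h3 : (Matrix.of fun a b => x (i.succAbove b) * (M.submatrix id i.succAbove) a b)
      = (Matrix.of fun a b => y a * (M'.submatrix id i.succAbove) a b) := by
    ext a b
    exact h a (i.succAbove b)
  rw [h3, h2] at h1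
  rw [Fin.prod_univ_succAbove _ i, mv, mv]
  linear_combination (x i) * (-1) ^ (i : ℕ) * (-h1)

theorem mv_zero_of_lower (M : Matrix (Fin e) (Fin (e + 1)) A)
    (h : ∀ k l : Fin e, k < l → M k l.succ = 0) : mv M 0 = ∏ k, M k k.succ := by
  rw [mv]
  have : (M.submatrix id (Fin.succAbove 0)).det = ∏ k, M k k.succ := by
    rw [Matrix.det_of_isLowerTriangular]
    · rfl
    · intro a b hab
      simp only [Matrix.submatrix_apply, id, Fin.succAbove_zero]
      exact h a b hab
  rw [this]
  simp

theorem mv_rec (M : Matrix (Fin e) (Fin (e + 1)) A)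
    (h : ∀ (k : Fin e) (i : Fin (e + 1)), i ≠ k.castSucc → i ≠ k.succ → M k i = 0) (k : Fin e) :
    M k k.castSucc * mv M k.castSucc + M k k.succ * mv M k.succ = 0 := by
  have h1 := mv_ker M k
  rw [Finset.sum_eq_add_of_mem k.castSucc k.succ (Finset.mem_univ _) (Finset.mem_univ _)] at h1
  · exact h1
  · exact (Fin.castSucc_lt_succ).ne
  · intro c _ hc
    rw [h k c hc.1 hc.2, zero_mul]

end

end Pool.Agent.Work.MP_8f100c_ag
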