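import Mathlib
import Pool.Agent.Work.MP_8f100c_ag.Minors

namespace Pool.Agent.Work.MP_8f100c_ag

open MvPolynomial

/-- chain rule for derivations -/
theorem derivation_aeval {σ A M : Type*} [Fintype σ] [CommRing A] [Algebra ℂ A] [AddCommGroup M]
    [Module A M] [Module ℂ M] [IsScalarTower ℂ A M] (D : Derivation ℂ A M) (g : σ → A)
    (F : MvPolynomial σ ℂ) :
    D (aeval g F) = ∑ i, aeval g (pderiv i F) • D (g i) := by
  classical
  induction F using MvPolynomial.induction_on with
  | C a => simp
  | add p q hp hq =>
    simp only [map_add, hp, hq, add_smul, Finset.sum_add_distrib]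
  | mul_X p n hp =>
    rw [map_mul, aeval_X, Derivation.leibniz, hp, Finset.smul_sum]
    have : ∀ i, aeval g (pderiv i (p * X n)) • D (g i)
        = (if i = n then aeval g p • D (g i) else 0) + g n • (aeval g (pderiv i p) • D (g i)) := by
      intro i
      rw [Derivation.leibniz, pderiv_X, smul_eq_mul, smul_eq_mul, map_add, map_mul, map_mul, aeval_X,
        add_smul, smul_smul]
      congr 1
      by_cases h : i = n
      · subst h; simp
      · rw [if_neg h, Pi.single_eq_of_ne (Ne.symm h)]; simp
    rw [Finset.sum_congr rfl (fun i _ => this i), Finset.sum_add_distrib]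
    simp

/-- relation between the signed minors and a kernel vector -/
theorem mv_mul_comm {A : Type*} [CommRing A] {n : ℕ} (M : Matrix (Fin n) (Fin (n + 1)) A)
    (w : Fin (n + 1) → A) (hw : ∀ l, ∑ i, M l i * w i = 0) (i j : Fin (n + 1)) :
    mv M j * w i = mv M i * w j := by
  classical
  let N : Fin (n + 1) → Matrix (Fin (n + 1)) (Fin (n + 1)) A := fun j =>
    Matrix.of (Fin.cons (Pi.single j 1) M : Fin (n + 1) → Fin (n + 1) → A)
  have hdet : ∀ j, (N j).det = mv M j := by
    intro j
    rw [Matrix.det_succ_row_zero, Finset.sum_eq_single j]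
    · have h1 : (N j) 0 j = 1 := by
        change (Pi.single j 1 : Fin (n + 1) → A) j = 1
        simp
      have h2 : (N j).submatrix Fin.succ j.succAbove = M.submatrix id j.succAbove := by
        ext a b
        rfl
      rw [h1, h2, mul_one, mv]
    · intro b _ hb
      have h1 : (N j) 0 b = 0 := by
        change (Pi.single j 1 : Fin (n + 1) → A) b = 0
        rw [Pi.single_eq_of_ne hb]
      rw [h1]
      ring
    · intro h
      exact absurd (Finset.mem_univ _) h
  have hNw : (N j).mulVec w = Pi.single 0 (w j) := by
    funext a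
    refine Fin.cases ?_ (fun l => ?_) a
    · change ∑ i, (Pi.single j 1 : Fin (n + 1) → A) i * w i = _
      simp [Pi.single_apply]
    · change ∑ i, M l i * w i = _
      rw [hw l, Pi.single_eq_of_ne (Fin.succ_ne_zero l)]
  have h1 : ((N j).adjugate * N j).mulVec w = (mv M j) • w := by
    rw [Matrix.adjugate_mul, hdet, Matrix.smul_mulVec, Matrix.one_mulVec]
  rw [← Matrix.mulVec_mulVec, hNw] at h1
  have h2 := congrFun h1 i
  rw [Matrix.mulVec_single] at h2
  have h3 : (N j).adjugate i 0 = mv M i := by
    rw [Matrix.adjugate_apply, ← hdet i]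
    congr 1
    ext a b
    refine Fin.cases ?_ (fun l => ?_) a
    · rw [Matrix.updateRow_self]
      rfl
    · rw [Matrix.updateRow_ne (Fin.succ_ne_zero l)]
      rfl
  simp only [Pi.smul_apply, smul_eq_mul, Matrix.col_apply, h3] at h2
  rw [← h2]
  simp [mul_comm, h3]

end Pool.Agent.Work.MP_8f100c_ag
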