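import Mathlib
import Pool.Agent.Work.MP_8f100c_ag.Jac

namespace Pool.Agent.Work.MP_8f100c_ag

theorem derivation_aeval_poly {P L : Type*} [CommRing P] [Algebra ℂ P] [Field L] [Algebra P L]
    [Algebra ℂ L] [IsScalarTower ℂ P L] (D : Derivation ℂ P L) (A0 : Subalgebra ℂ P)
    (h0 : ∀ a ∈ A0, D a = 0) (x : P) (Q : Polynomial A0) :
    D (Polynomial.aeval x Q) = (Polynomial.aeval x (Polynomial.derivative Q)) • D x := by
  induction Q using Polynomial.induction_on' with
  | add p q hp hq => simp only [map_add, hp, hq, add_smul]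
  | monomial n a =>
    rw [Polynomial.aeval_monomial, Derivation.leibniz, Derivation.leibniz_pow]
    have h1 : D (algebraMap A0 P a) = 0 := h0 _ a.2
    rw [h1, smul_zero, add_zero, Polynomial.derivative_monomial, Polynomial.aeval_monomial, map_mul,
      map_natCast]
    rw [← Nat.cast_smul_eq_nsmul P, smul_smul, smul_smul]

theorem derivation_eq_zero {P L : Type*} [CommRing P] [IsDomain P] [Algebra ℂ P] [Field L]
    [Algebra P L] [Algebra ℂ L] [IsScalarTower ℂ P L]
    (hinj : Function.Injective (algebraMap P L)) (D : Derivation ℂ P L) (A0 : Subalgebra ℂ P)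
    (h0 : ∀ a ∈ A0, D a = 0) (x : P) (hx : IsAlgebraic A0 x) : D x = 0 := by
  classical
  have hex : ∃ N : ℕ, ∃ Q : Polynomial A0, Q.natDegree = N ∧ Q ≠ 0 ∧ Polynomial.aeval x Q = 0 := by
    obtain ⟨Q, hQ, hQx⟩ := hx
    exact ⟨_, Q, rfl, hQ, hQx⟩
  obtain ⟨Q, hQN, hQ0, hQx⟩ := Nat.find_spec hex
  have hmin := fun (N : ℕ) (hN : N < Nat.find hex) => Nat.find_min hex hN
  have hcz : CharZero A0 := by
    have : CharZero P := charZero_of_injective_algebraMap (algebraMap ℂ P).injective
    exact charZero_of_injective_algebraMap (R := ℕ) (A := A0) (fun a b h => by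
      have : ((a : A0) : P) = ((b : A0) : P) := congrArg _ h
      exact_mod_cast this)
  have hdeg : Q.natDegree ≠ 0 := by
    intro h
    obtain ⟨c, hc⟩ := Polynomial.natDegree_eq_zero.mp h
    rw [← hc, Polynomial.aeval_C] at hQx
    have : c = 0 := by
      apply Subtype.ext
      exact hQx
    rw [this, map_zero] at hc
    exact hQ0 hc.symm
  have hder : Polynomial.derivative Q ≠ 0 := by
    intro h
    exact hdeg (Polynomial.derivative_eq_zero.mp h)
  have hlt : (Polynomial.derivative Q).natDegree < Nat.find hex := by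
    rw [← hQN]
    exact Polynomial.natDegree_derivative_lt hdeg
  have hne : Polynomial.aeval x (Polynomial.derivative Q) ≠ 0 := by
    intro h
    exact hmin _ hlt ⟨_, rfl, hder, h⟩
  have h1 := derivation_aeval_poly D A0 h0 x Q
  rw [hQx, map_zero, Algebra.smul_def] at h1
  exact (mul_eq_zero.mp h1.symm).resolve_left (fun h => hne ((map_eq_zero_iff _ hinj).mp h))

open MvPolynomial

theorem exists_coeffs {m n : ℕ} (f : Fin n → MvPolynomial (Fin m) ℂ) (hf : AlgebraicIndependent ℂ f)
    (L : Type*) [Field L] [Algebra (MvPolynomial (Fin m) ℂ) L] [Algebra ℂ L]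
    [IsScalarTower ℂ (MvPolynomial (Fin m) ℂ) L] [IsFractionRing (MvPolynomial (Fin m) ℂ) L]
    (e : Fin n → L) :
    ∃ c : Fin m → L, ∀ i, ∑ j, algebraMap (MvPolynomial (Fin m) ℂ) L (pderiv j (f i)) * c j = e i := by
  classical
  obtain ⟨B, hB, hBt⟩ := exists_isTranscendenceBasis_superset (R := ℂ) (A := MvPolynomial (Fin m) ℂ)
    (s := Set.range f) hf.to_subtype_range
  have hcard : Cardinal.mk B = m := by
    have := hBt.cardinalMk_eq (IsTranscendenceBasis.mvPolynomial (Fin m) ℂ)
    rw [this]
    simp
  have hfin : Finite B := by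
    rw [← Cardinal.lt_aleph0_iff_finite, hcard]
    exact Cardinal.natCast_lt_aleph0
  have : Fintype B := Fintype.ofFinite B
  have hcard2 : Fintype.card B = m := by
    rw [Cardinal.mk_fintype] at hcard
    exact_mod_cast hcard
  let J : Matrix B (Fin m) L := Matrix.of fun b j => algebraMap _ L (pderiv j (b : MvPolynomial (Fin m) ℂ))
  have hinj : Function.Injective (Matrix.mulVecLin J) := by
    rw [← LinearMap.ker_eq_bot, LinearMap.ker_eq_bot']
    intro c hc
    let D : Derivation ℂ (MvPolynomial (Fin m) ℂ) L := mkDerivation ℂ c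
    have hD : ∀ p, D p = ∑ j, algebraMap _ L (pderiv j p) * c j := by
      intro p
      have := derivation_aeval D X p
      rw [aeval_X_left, AlgHom.id_apply] at this
      rw [this]
      apply Finset.sum_congr rfl
      intro j _
      rw [AlgHom.id_apply, Algebra.smul_def]
      simp [D]
    have hDB : ∀ b : B, D b = 0 := by
      intro b
      rw [hD]
      exact congrFun hc b
    have hD0 : ∀ a ∈ Algebra.adjoin ℂ B, D a = 0 := by
      intro a ha
      induction ha using Algebra.adjoin_induction with
      | mem x hx => exact hDB ⟨x, hx⟩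
      | algebraMap r => simp
      | add x y _ _ hx hy => rw [map_add, hx, hy, add_zero]
      | mul x y _ _ hx hy => rw [Derivation.leibniz, hx, hy]; simp
    have halg := hBt.isAlgebraic
    rw [Subtype.range_val] at halg
    funext j
    have h1 := derivation_eq_zero (IsFractionRing.injective (MvPolynomial (Fin m) ℂ) L) D
      (Algebra.adjoin ℂ B) hD0 (X j) (halg.isAlgebraic (X j))
    simpa [D] using h1
  have hsurj : Function.Surjective (Matrix.mulVecLin J) := by
    rw [← LinearMap.injective_iff_surjective_of_finrank_eq_finrank]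
    · exact hinj
    · simp [hcard2]
  let fB : Fin n → B := fun i => ⟨f i, hB ⟨i, rfl⟩⟩
  have hfB : Function.Injective fB := by
    intro a b hab
    exact hf.injective (congrArg Subtype.val hab)
  obtain ⟨c, hc⟩ := hsurj (fun b => if h : ∃ i, fB i = b then e h.choose else 0)
  refine ⟨c, fun i => ?_⟩
  have h1 := congrFun hc (fB i)
  have hex : ∃ i', fB i' = fB i := ⟨i, rfl⟩
  rw [dif_pos hex, hfB hex.choose_spec] at h1
  exact h1

/-- if all the maximal minors taken from `n` columns vanish then the same holds for general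
directions -/
theorem mv_dir_zero {m n : ℕ} (g : Fin (n + 1) → MvPolynomial (Fin m) ℂ)
    (L : Type*) [Field L] [Algebra (MvPolynomial (Fin m) ℂ) L]
    (h : ∀ (S : Fin n → Fin m) (i : Fin (n + 1)),
      mv (Matrix.of fun (l : Fin n) (i : Fin (n + 1)) => pderiv (S l) (g i)) i = 0)
    (c : Fin n → Fin m → L) (i : Fin (n + 1)) :
    mv (Matrix.of fun (l : Fin n) (i : Fin (n + 1)) =>
      ∑ j, algebraMap (MvPolynomial (Fin m) ℂ) L (pderiv j (g i)) * c l j) i = 0 := by
  classical
  let T : (Fin m → L) →ₗ[L] (Fin n → L) := Matrix.mulVecLin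
    (Matrix.of fun (a : Fin n) (j : Fin m) => algebraMap (MvPolynomial (Fin m) ℂ) L (pderiv j (g (i.succAbove a))))
  let Φ : (Fin m → L) [⋀^Fin n]→ₗ[L] L := (Matrix.detRowAlternating (n := Fin n) (R := L)).compLinearMap T
  have hΦ : Φ = 0 := by
    apply Module.Basis.ext_alternating (Pi.basisFun L (Fin m))
    intro S _
    change Matrix.det (fun l => T (Pi.basisFun L (Fin m) (S l))) = 0
    have h1 : (fun l => T (Pi.basisFun L (Fin m) (S l)))
        = ((Matrix.of fun (l : Fin n) (i : Fin (n + 1)) => pderiv (S l) (g i)).submatrix id i.succAbove).map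
          (algebraMap (MvPolynomial (Fin m) ℂ) L) := by
      ext l a
      simp [T]
    rw [h1, ← RingHom.mapMatrix_apply, ← RingHom.map_det]
    have h2 := h S i
    rw [mv] at h2
    have h3 : ((Matrix.of fun (l : Fin n) (i : Fin (n + 1)) => pderiv (S l) (g i)).submatrix id i.succAbove).det = 0 := by
      rcases mul_eq_zero.mp h2 with h4 | h4
      · exact absurd h4 (pow_ne_zero _ (neg_ne_zero.mpr one_ne_zero))
      · exact h4
    rw [h3, map_zero]
  have h5 : Φ c = 0 := by rw [hΦ]; rfl
  rw [mv]
  have h6 : ((Matrix.of fun (l : Fin n) (i : Fin (n + 1)) =>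
      ∑ j, algebraMap (MvPolynomial (Fin m) ℂ) L (pderiv j (g i)) * c l j).submatrix id i.succAbove).det = Φ c := by
    change _ = Matrix.det (fun l => T (c l))
    congr 1
  rw [h6, h5, mul_zero]

end Pool.Agent.Work.MP_8f100c_ag
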