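import Mathlib

namespace Pool.Agent.Work.MP_8f100c_ag

open MvPolynomial

/-- the hypersurface `F = 0` is smooth -/
def IsSmoothHyp {n : ℕ} (F : MvPolynomial (Fin (n + 1)) ℂ) : Prop :=
  ∀ x : Fin (n + 1) → ℂ, x ≠ 0 → eval x F = 0 → ∃ i, eval x (pderiv i F) ≠ 0

/-- the hypersurface `F = 0` is unirational -/
def IsUnirationalHyp {n : ℕ} (F : MvPolynomial (Fin (n + 1)) ℂ) : Prop :=
  ∃ (m k : ℕ) (g : Fin (n + 1) → MvPolynomial (Fin (m + 1)) ℂ),
    (∀ i, (g i).IsHomogeneous k) ∧ (∃ i, g i ≠ 0) ∧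
    (∀ t : Fin (m + 1) → ℂ, (fun i => eval t (g i)) ≠ 0 → eval (fun i => eval t (g i)) F = 0) ∧
    ∀ (D : ℕ) (H : MvPolynomial (Fin (n + 1)) ℂ), H.IsHomogeneous D →
      (∀ t : Fin (m + 1) → ℂ, (fun i => eval t (g i)) ≠ 0 → eval (fun i => eval t (g i)) H = 0) →
      ∀ x : Fin (n + 1) → ℂ, x ≠ 0 → eval x F = 0 → eval x H = 0

theorem aeval_mul_of_isHomogeneous {σ R S : Type*} [CommSemiring R] [CommSemiring S] [Algebra R S]
    {G : MvPolynomial σ R} {N : ℕ} (hG : G.IsHomogeneous N) (c : S) (x : σ → S) :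
    aeval (fun i => c * x i) G = c ^ N * aeval x G := by
  rw [aeval_def, aeval_def, eval₂_eq, eval₂_eq, Finset.mul_sum]
  apply Finset.sum_congr rfl
  intro d hd
  have h1 : ∑ i ∈ d.support, d i = N := by
    by_contra h
    exact mem_support_iff.mp hd (hG.coeff_eq_zero h)
  simp_rw [mul_pow, Finset.prod_mul_distrib]
  rw [Finset.prod_pow_eq_pow_sum, h1]
  ring

theorem eval_mul_of_isHomogeneous {σ R : Type*} [CommSemiring R]
    {G : MvPolynomial σ R} {N : ℕ} (hG : G.IsHomogeneous N) (c : R) (x : σ → R) :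
    eval (fun i => c * x i) G = c ^ N * eval x G := by
  have := aeval_mul_of_isHomogeneous hG c x
  simpa [aeval_eq_eval] using this

theorem eval_aeval_eq {σ τ : Type*} (v : τ → ℂ) (f : σ → MvPolynomial τ ℂ) (G : MvPolynomial σ ℂ) :
    eval v (aeval f G) = eval (fun i => eval v (f i)) G := by
  have := comp_aeval_apply (R := ℂ) (f := f) (aeval v) G
  simpa [aeval_eq_eval] using this

/-- homogenization -/
noncomputable def hgz {M : ℕ} (k : ℕ) (p : MvPolynomial (Fin M) ℂ) : MvPolynomial (Fin (M + 1)) ℂ :=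
  ∑ j ∈ Finset.range (k + 1), X 0 ^ (k - j) * rename Fin.succ (homogeneousComponent j p)

theorem hgz_isHomogeneous {M : ℕ} (k : ℕ) (p : MvPolynomial (Fin M) ℂ) : (hgz k p).IsHomogeneous k := by
  apply IsHomogeneous.sum
  intro j hj
  have h1 : ((X 0 : MvPolynomial (Fin (M + 1)) ℂ) ^ (k - j)).IsHomogeneous (k - j) :=
    isHomogeneous_X_pow _ _
  have h2 : (rename (Fin.succ : Fin M → Fin (M + 1)) (homogeneousComponent j p)).IsHomogeneous j :=
    (homogeneousComponent_isHomogeneous j p).rename_isHomogeneous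
  have := h1.mul h2
  rwa [Nat.sub_add_cancel (by simp at hj; omega)] at this

theorem hgz_dehom {M : ℕ} (k : ℕ) (p : MvPolynomial (Fin M) ℂ) (hk : p.totalDegree ≤ k) :
    aeval (Fin.cons 1 X : Fin (M + 1) → MvPolynomial (Fin M) ℂ) (hgz k p) = p := by
  rw [hgz, map_sum]
  conv_rhs => rw [← sum_homogeneousComponent p]
  have h1 : ∀ j ∈ Finset.range (k + 1), aeval (Fin.cons 1 X : Fin (M + 1) → MvPolynomial (Fin M) ℂ)
      (X 0 ^ (k - j) * rename Fin.succ (homogeneousComponent j p)) = homogeneousComponent j p := by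
    intro j _
    rw [map_mul, map_pow, aeval_X, aeval_rename]
    simp only [Fin.cons_zero, one_pow, one_mul]
    have : (Fin.cons 1 X : Fin (M + 1) → MvPolynomial (Fin M) ℂ) ∘ Fin.succ = X := by
      funext i
      simp
    rw [this, aeval_X_left, AlgHom.id_apply]
  rw [Finset.sum_congr rfl h1]
  symm
  apply Finset.sum_subset
  · intro j hj
    simp at hj ⊢
    omega
  · intro j _ hj
    apply homogeneousComponent_eq_zero
    simp at hj
    omega

theorem eq_zero_of_dehom {M N : ℕ} {G : MvPolynomial (Fin (M + 1)) ℂ} (hG : G.IsHomogeneous N)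
    (h : aeval (Fin.cons 1 X : Fin (M + 1) → MvPolynomial (Fin M) ℂ) G = 0) : G = 0 := by
  have h1 : X 0 * G = 0 := by
    apply MvPolynomial.funext
    intro t
    rw [map_mul, eval_X, map_zero]
    by_cases ht : t 0 = 0
    · rw [ht, zero_mul]
    · have h2 : eval t G = (t 0) ^ N * eval (fun i => (t 0)⁻¹ * t i) G := by
        rw [← eval_mul_of_isHomogeneous hG]
        congr 2
        funext i
        field_simp
      have h3 : eval (fun i => (t 0)⁻¹ * t i) G = 0 := by
        have h4 := congrArg (eval (fun i : Fin M => (t 0)⁻¹ * t i.succ)) h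
        rw [map_zero] at h4
        rw [← h4, eval_aeval_eq]
        congr 2
        funext i
        refine Fin.cases ?_ (fun l => ?_) i
        · simp [ht]
        · simp
      rw [h2, h3, mul_zero, mul_zero]
  exact (mul_eq_zero.mp h1).resolve_left (X_ne_zero 0)

end Pool.Agent.Work.MP_8f100c_ag
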