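import Mathlib
import Pool.Agent.Work.MP_8f100c_ag.Jac
import Pool.Agent.Work.MP_8f100c_ag.Hom

namespace Pool.Agent.Work.MP_8f100c_ag

open MvPolynomial

/-- restriction to the line `y + s v` -/
noncomputable def lin {n : ℕ} (y v : Fin n → ℂ) (F : MvPolynomial (Fin n) ℂ) : Polynomial ℂ :=
  aeval (fun i => Polynomial.C (y i) + Polynomial.C (v i) * Polynomial.X) F

theorem lin_eval {n : ℕ} (y v : Fin n → ℂ) (F : MvPolynomial (Fin n) ℂ) (s : ℂ) :
    (lin y v F).eval s = eval (fun i => y i + s * v i) F := by
  rw [lin]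
  have := comp_aeval_apply (R := ℂ) (f := (fun i => Polynomial.C (y i) + Polynomial.C (v i) * Polynomial.X))
    (Polynomial.aeval s : Polynomial ℂ →ₐ[ℂ] ℂ) F
  have h2 : (fun i => (Polynomial.aeval s : Polynomial ℂ →ₐ[ℂ] ℂ)
      (Polynomial.C (y i) + Polynomial.C (v i) * Polynomial.X)) = fun i => y i + s * v i := by
    funext i
    rw [map_add, map_mul, Polynomial.aeval_C, Polynomial.aeval_C, Polynomial.aeval_X]
    change y i + v i * s = _
    ring
  rw [← Polynomial.coe_aeval_eq_eval, this, h2, aeval_eq_eval]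

theorem prod_lin {n : ℕ} (y v : Fin n → ℂ) (d : Fin n → ℕ) (s : Finset (Fin n)) :
    (∏ i ∈ s, (Polynomial.C (y i) + Polynomial.C (v i) * Polynomial.X) ^ (d i)).natDegree ≤ ∑ i ∈ s, d i ∧
    (∏ i ∈ s, (Polynomial.C (y i) + Polynomial.C (v i) * Polynomial.X) ^ (d i)).coeff (∑ i ∈ s, d i)
      = ∏ i ∈ s, (v i) ^ (d i) := by
  classical
  induction s using Finset.induction_on with
  | empty => simp
  | insert a s ha ih =>
    rw [Finset.prod_insert ha, Finset.sum_insert ha, Finset.prod_insert ha]
    have h1 : (Polynomial.C (y a) + Polynomial.C (v a) * Polynomial.X).natDegree ≤ 1 := by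
      rw [add_comm]
      exact Polynomial.natDegree_linear_le
    have h2 : ((Polynomial.C (y a) + Polynomial.C (v a) * Polynomial.X) ^ (d a)).natDegree ≤ d a := by
      refine Polynomial.natDegree_pow_le.trans ?_
      calc d a * _ ≤ d a * 1 := Nat.mul_le_mul_left _ h1
        _ = d a := mul_one _
    refine ⟨?_, ?_⟩
    · exact Polynomial.natDegree_mul_le.trans (add_le_add h2 ih.1)
    · rw [Polynomial.coeff_mul_add_eq_of_natDegree_le h2 ih.1, ih.2]
      congr 1
      have := Polynomial.coeff_pow_of_natDegree_le (m := d a) h1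
      rw [mul_one] at this
      rw [this]
      simp

theorem lin_coeff {n d : ℕ} (y v : Fin n → ℂ) (F : MvPolynomial (Fin n) ℂ) (hF : F.IsHomogeneous d) :
    (lin y v F).natDegree ≤ d ∧ (lin y v F).coeff d = eval v F := by
  rw [lin, aeval_def, eval₂_eq]
  have hdeg : ∀ α ∈ F.support, ∑ i ∈ α.support, α i = d := by
    intro α hα
    by_contra h
    exact mem_support_iff.mp hα (hF.coeff_eq_zero h)
  constructor
  · apply Polynomial.natDegree_sum_le_of_forall_le
    intro α hα
    rw [Polynomial.algebraMap_apply]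
    refine (Polynomial.natDegree_C_mul_le _ _).trans ?_
    rw [← hdeg α hα]
    exact (prod_lin y v α α.support).1
  · rw [Polynomial.finsetSum_coeff, eval_eq]
    apply Finset.sum_congr rfl
    intro α hα
    rw [Polynomial.algebraMap_apply, Polynomial.coeff_C_mul]
    conv_lhs => rw [← hdeg α hα]
    rw [(prod_lin y v α α.support).2]
    rfl

theorem exists_root_line {n d : ℕ} (hd : 1 ≤ d) (y v : Fin n → ℂ) (F : MvPolynomial (Fin n) ℂ)
    (hF : F.IsHomogeneous d) (hv : eval v F ≠ 0) : ∃ s : ℂ, eval (fun i => y i + s * v i) F = 0 := by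
  obtain ⟨h1, h2⟩ := lin_coeff y v F hF
  have h3 : (lin y v F).natDegree = d := by
    apply le_antisymm h1
    apply Polynomial.le_natDegree_of_ne_zero
    rwa [h2]
  obtain ⟨s, hs⟩ := IsAlgClosed.exists_root (lin y v F) (by
    intro h
    have := Polynomial.natDegree_eq_of_degree_eq_some (n := 0) (by simpa using h)
    omega)
  exact ⟨s, by rw [← lin_eval]; exact hs⟩

theorem lin_deriv {n : ℕ} (y v : Fin n → ℂ) (F : MvPolynomial (Fin n) ℂ) :
    (Polynomial.derivative (lin y v F)).eval 0 = ∑ i, eval y (pderiv i F) * v i := by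
  have h := derivation_aeval (Polynomial.derivative' (R := ℂ))
    (fun i => Polynomial.C (y i) + Polynomial.C (v i) * Polynomial.X) F
  have hd : ∀ i, (Polynomial.derivative' (R := ℂ))
      (Polynomial.C (y i) + Polynomial.C (v i) * Polynomial.X) = Polynomial.C (v i) := by
    intro i
    change Polynomial.derivative (Polynomial.C (y i) + Polynomial.C (v i) * Polynomial.X) = _
    rw [Polynomial.derivative_add, Polynomial.derivative_C, Polynomial.derivative_C_mul,
      Polynomial.derivative_X, mul_one, zero_add]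
  simp only [hd, smul_eq_mul] at h
  have h1 := congrArg (Polynomial.eval 0) h
  rw [Polynomial.eval_finsetSum] at h1
  refine Eq.trans (?_ : _ = Polynomial.eval 0 ((Polynomial.derivative' (R := ℂ)) (aeval
    (fun i => Polynomial.C (y i) + Polynomial.C (v i) * Polynomial.X) F))) (h1.trans ?_)
  · rfl
  · apply Finset.sum_congr rfl
    intro i _
    rw [Polynomial.eval_mul, Polynomial.eval_C]
    have h3 := lin_eval y v (pderiv i F) 0
    rw [lin] at h3
    rw [h3]
    simp

/-- a smooth hypersurface of degree at least two is not contained in a line through the origin -/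
theorem const_case {n d : ℕ} (hd : 2 ≤ d) (F : MvPolynomial (Fin (n + 1)) ℂ)
    (hF : F.IsHomogeneous d) (hF0 : F ≠ 0) (hs : IsSmoothHyp F) (c : Fin (n + 1) → ℂ) (hc : c ≠ 0)
    (hFc : eval c F = 0)
    (hline : ∀ x : Fin (n + 1) → ℂ, x ≠ 0 → eval x F = 0 → ∀ i j, c j * x i = c i * x j) : False := by
  obtain ⟨i1, hi1⟩ := hs c hc hFc
  have hG : (∑ i, C (eval c (pderiv i F)) * X i : MvPolynomial (Fin (n + 1)) ℂ) ≠ 0 := by
    intro h
    have := congrArg (coeff (Finsupp.single i1 1)) h
    rw [coeff_sum] at this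
    simp only [coeff_C_mul, coeff_X, coeff_zero] at this
    rw [Finset.sum_eq_single i1] at this
    · simp at this
      exact hi1 this
    · intro b _ hb
      rw [if_neg, mul_zero]
      intro h'
      exact hb ((Finsupp.single_left_inj one_ne_zero).mp h')
    · intro h'
      exact absurd (Finset.mem_univ _) h'
  have hprod := mul_ne_zero hF0 hG
  obtain ⟨v, hv⟩ : ∃ v, eval v (F * ∑ i, C (eval c (pderiv i F)) * X i) ≠ 0 := by
    by_contra hcon
    push Not at hcon
    exact hprod (MvPolynomial.funext (fun v => by rw [hcon v, map_zero]))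
  rw [map_mul, map_sum] at hv
  simp only [map_mul, eval_C, eval_X] at hv
  have hv1 : eval v F ≠ 0 := left_ne_zero_of_mul hv
  have hv2 := right_ne_zero_of_mul hv
  set q := lin c v F with hq
  obtain ⟨h1, h2⟩ := lin_coeff c v F hF
  have hq0 : q.coeff 0 = 0 := by
    rw [Polynomial.coeff_zero_eq_eval_zero, hq, lin_eval]
    simpa using hFc
  have hq1 : q.coeff 1 ≠ 0 := by
    have h3 := lin_deriv c v F
    rw [← Polynomial.coeff_zero_eq_eval_zero, Polynomial.coeff_derivative] at h3
    intro h4
    rw [← hq, h4] at h3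
    simp at h3
    exact hv2 h3.symm
  have hdiv : q = Polynomial.X * q.divX := by
    have := Polynomial.X_mul_divX_add q
    rw [hq0, map_zero, add_zero] at this
    exact this.symm
  have hdeg : q.natDegree = d := by
    apply le_antisymm h1
    apply Polynomial.le_natDegree_of_ne_zero
    rwa [h2]
  have hdeg2 : q.divX.natDegree = d - 1 := by
    rw [Polynomial.natDegree_divX_eq_natDegree_tsub_one, hdeg]
  obtain ⟨s, hs'⟩ := IsAlgClosed.exists_root q.divX (by
    intro h
    have := Polynomial.natDegree_eq_of_degree_eq_some (n := 0) (by simpa using h)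
    omega)
  have hs0 : s ≠ 0 := by
    intro h
    rw [h, Polynomial.IsRoot, ← Polynomial.coeff_zero_eq_eval_zero, Polynomial.coeff_divX] at hs'
    exact hq1 hs'
  have hroot : eval (fun i => c i + s * v i) F = 0 := by
    rw [← lin_eval, ← hq, hdiv, Polynomial.eval_mul, hs', mul_zero]
  have hscale : ∀ r : ℂ, eval (fun i => r * v i) F = r ^ d * eval v F := fun r =>
    eval_mul_of_isHomogeneous hF r v
  have hx0 : (fun i => c i + s * v i) ≠ 0 := by
    intro h
    have h3 : c = fun i => (-s) * v i := by
      funext i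
      have := congrFun h i
      simp only [Pi.zero_apply] at this
      linear_combination this
    rw [h3, hscale] at hFc
    rcases mul_eq_zero.mp hFc with h4 | h4
    · exact hs0 (neg_eq_zero.mp (pow_eq_zero_iff (by omega) |>.mp h4))
    · exact hv1 h4
  have hl := hline _ hx0 hroot
  obtain ⟨j, hj⟩ : ∃ j, c j ≠ 0 := by
    by_contra hcon
    push Not at hcon
    exact hc (funext hcon)
  have h5 : v = fun i => (v j / c j) * c i := by
    funext i
    have h6 := hl i j
    have h7 : s * (c j * v i - c i * v j) = 0 := by linear_combination h6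
    have h8 := (mul_eq_zero.mp h7).resolve_left hs0
    field_simp
    linear_combination h8
  apply hv1
  rw [h5, eval_mul_of_isHomogeneous hF, hFc, mul_zero]

end Pool.Agent.Work.MP_8f100c_ag
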