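import Mathlib
import Pool.Agent.Work.MP_8f100c_ag.LineLem
import Pool.Agent.Work.MP_8f100c_ag.JacCrit
import Pool.Agent.Work.MP_8f100c_ag.HomFactor

namespace Pool.Agent.Work.MP_8f100c_ag

open MvPolynomial

/-- Nullstellensatz for the derivatives -/
theorem exists_pow_mem {n d : ℕ} (hd : 1 ≤ d) (F : MvPolynomial (Fin (n + 1)) ℂ)
    (hF : F.IsHomogeneous d) (hs : IsSmoothHyp F) (j : Fin (n + 1)) :
    ∃ N : ℕ, (X j : MvPolynomial (Fin (n + 1)) ℂ) ^ N ∈
      Ideal.span (Set.range (fun i => pderiv i F)) := by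
  set I := Ideal.span (Set.range (fun i => pderiv i F)) with hI
  have h1 : (X j : MvPolynomial (Fin (n + 1)) ℂ) ∈ I.radical := by
    rw [← vanishingIdeal_zeroLocus_eq_radical (K := ℂ)]
    rw [mem_vanishingIdeal_iff]
    intro x hx
    rw [mem_zeroLocus_iff] at hx
    rw [aeval_X]
    have h2 : ∀ i, eval x (pderiv i F) = 0 := by
      intro i
      have := hx (pderiv i F) (Ideal.subset_span ⟨i, rfl⟩)
      rwa [aeval_eq_eval] at this
    have h3 : eval x F = 0 := by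
      have := congrArg (eval x) (hF.sum_X_mul_pderiv)
      rw [map_sum] at this
      simp only [map_mul, h2, mul_zero, Finset.sum_const_zero] at this
      rw [nsmul_eq_mul, map_mul, map_natCast] at this
      exact (mul_eq_zero.mp this.symm).resolve_left (by exact_mod_cast (by omega : d ≠ 0))
    by_contra hxj
    have hx0 : x ≠ 0 := fun h => hxj (by rw [h]; rfl)
    obtain ⟨i, hi⟩ := hs x hx0 h3
    exact hi (h2 i)
  exact h1

/-- homogeneous parametrization data -/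
def DP {n m : ℕ} (F : MvPolynomial (Fin (n + 1)) ℂ) (k : ℕ)
    (g : Fin (n + 1) → MvPolynomial (Fin (m + 1)) ℂ) : Prop :=
  (∀ i, (g i).IsHomogeneous k) ∧ (∃ i, g i ≠ 0) ∧ aeval g F = 0 ∧
    ∀ (D : ℕ) (H : MvPolynomial (Fin (n + 1)) ℂ), H.IsHomogeneous D → aeval g H = 0 →
      ∀ x : Fin (n + 1) → ℂ, x ≠ 0 → eval x F = 0 → eval x H = 0

theorem eval_zero_of_isHomogeneous {σ : Type*} {H : MvPolynomial σ ℂ} {D : ℕ} (hH : H.IsHomogeneous D)
    (x : σ → ℂ) (hx : eval x H = 0) : eval 0 H = 0 := by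
  have h3 := eval_mul_of_isHomogeneous hH (0 : ℂ) x
  rw [hx, mul_zero] at h3
  rw [← h3]
  congr 2
  funext j
  simp

theorem eval_zero_of_pos {σ : Type*} {H : MvPolynomial σ ℂ} {D : ℕ} (hH : H.IsHomogeneous D)
    (hD : 1 ≤ D) : eval 0 H = 0 := by
  have h3 := eval_mul_of_isHomogeneous hH (0 : ℂ) 0
  rw [zero_pow (by omega), zero_mul] at h3
  rw [← h3]
  congr 2
  funext j
  simp

theorem exists_DP {n d : ℕ} (hd : 1 ≤ d) (F : MvPolynomial (Fin (n + 1)) ℂ)
    (hF : F.IsHomogeneous d) (hu : IsUnirationalHyp F) :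
    ∃ (m k : ℕ) (g : Fin (n + 1) → MvPolynomial (Fin (m + 1)) ℂ), DP F k g := by
  obtain ⟨m, k, g, hg, hg0, hgF, hgH⟩ := hu
  refine ⟨m, k, g, hg, hg0, ?_, ?_⟩
  · apply MvPolynomial.funext
    intro t
    rw [map_zero, eval_aeval_eq]
    by_cases ht : (fun i => eval t (g i)) = 0
    · rw [ht]
      exact eval_zero_of_pos hF hd
    · exact hgF t ht
  · intro D H hH hgH0 x hx hxF
    apply hgH D H hH _ x hx hxF
    intro t _
    rw [← eval_aeval_eq, hgH0, map_zero]

theorem aeval_mul_left {n m : ℕ} {H : MvPolynomial (Fin (n + 1)) ℂ} {D : ℕ} (hH : H.IsHomogeneous D)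
    (p : MvPolynomial (Fin (m + 1)) ℂ) (g g' : Fin (n + 1) → MvPolynomial (Fin (m + 1)) ℂ)
    (h : ∀ i, g i = p * g' i) : aeval g H = p ^ D * aeval g' H := by
  rw [← aeval_mul_of_isHomogeneous hH p g']
  have : g = fun i => p * g' i := funext h
  rw [this]

/-- minimal parametrizations have no common prime factor -/
theorem exists_coprime_DP {n m d : ℕ} (F : MvPolynomial (Fin (n + 1)) ℂ)
    (hF : F.IsHomogeneous d) (hex : ∃ (k : ℕ) (g : Fin (n + 1) → MvPolynomial (Fin (m + 1)) ℂ), DP F k g) :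
    ∃ (k : ℕ) (g : Fin (n + 1) → MvPolynomial (Fin (m + 1)) ℂ), DP F k g ∧
      ∀ p : MvPolynomial (Fin (m + 1)) ℂ, Prime p → ∃ i, ¬ p ∣ g i := by
  classical
  obtain ⟨g, hg⟩ := Nat.find_spec hex
  have hmin := fun (N : ℕ) (hN : N < Nat.find hex) => Nat.find_min hex hN
  refine ⟨Nat.find hex, g, hg, fun p hp => ?_⟩
  by_contra hcon
  push Not at hcon
  choose g' hg' using hcon
  obtain ⟨hgh, ⟨i0, hi0⟩, hgF, hgH⟩ := hg
  have h0 : p * g' i0 ≠ 0 := by rw [← hg' i0]; exact hi0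
  obtain ⟨a, b, hab, hpa, hgb⟩ := isHomogeneous_of_mul (p := p) (q := g' i0) (k := Nat.find hex)
    (by rw [← hg' i0]; exact hgh i0) h0
  have ha : 1 ≤ a := by
    by_contra ha0
    have ha1 : a = 0 := by omega
    rw [ha1] at hpa
    have h2 : p.totalDegree = 0 := Nat.le_zero.mp hpa.totalDegree_le
    rw [totalDegree_eq_zero_iff_eq_C] at h2
    have h3 : coeff 0 p ≠ 0 := by
      intro h4
      rw [h4, map_zero] at h2
      exact hp.ne_zero h2
    apply hp.not_isUnit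
    rw [h2]
    exact (isUnit_iff_ne_zero.mpr h3).map C
  refine hmin b (by omega) ⟨g', ?_, ⟨i0, right_ne_zero_of_mul h0⟩, ?_, ?_⟩
  · intro i
    by_cases hi : g' i = 0
    · rw [hi]
      exact isHomogeneous_zero _ _ _
    · have h1 : p * g' i ≠ 0 := mul_ne_zero hp.ne_zero hi
      obtain ⟨a', b', hab', hpa', hgb'⟩ := isHomogeneous_of_mul (p := p) (q := g' i) (k := Nat.find hex)
        (by rw [← hg' i]; exact hgh i) h1
      have : a' = a := hpa'.inj_right hpa hp.ne_zero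
      have : b' = b := by omega
      rwa [← this]
  · have := aeval_mul_left hF p g g' hg'
    rw [hgF] at this
    exact (mul_eq_zero.mp this.symm).resolve_left (pow_ne_zero _ hp.ne_zero)
  · intro D H hH hH0 x hx hxF
    apply hgH D H hH _ x hx hxF
    rw [aeval_mul_left hH p g g' hg', hH0, mul_zero]

theorem mv_isHomogeneous {n m k : ℕ} (M : Matrix (Fin n) (Fin (n + 1)) (MvPolynomial (Fin m) ℂ))
    (hM : ∀ l i, (M l i).IsHomogeneous k) (i : Fin (n + 1)) : (mv M i).IsHomogeneous (n * k) := by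
  rw [mv, Matrix.det_apply']
  have h1 : ((-1 : MvPolynomial (Fin m) ℂ) ^ (i : ℕ)) = C ((-1) ^ (i : ℕ)) := by simp
  rw [h1]
  apply IsHomogeneous.C_mul
  apply IsHomogeneous.sum
  intro σ _
  have h2 : (((Equiv.Perm.sign σ : ℤˣ) : ℤ) : MvPolynomial (Fin m) ℂ) = C (((Equiv.Perm.sign σ : ℤˣ) : ℤ) : ℂ) := by
    simp
  rw [h2]
  apply IsHomogeneous.C_mul
  have h3 := IsHomogeneous.prod (Finset.univ : Finset (Fin n))
    (fun l => (M.submatrix id i.succAbove) (σ l) l) (fun _ => k) (fun l _ => hM _ _)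
  simpa using h3

/-- the key vanishing of the minors -/
theorem minors_zero {n m d k : ℕ} (hd : n + 2 ≤ d) (hk : 1 ≤ k)
    (F : MvPolynomial (Fin (n + 2)) ℂ) (hF : F.IsHomogeneous d) (hs : IsSmoothHyp F)
    (g : Fin (n + 2) → MvPolynomial (Fin (m + 1)) ℂ) (hg : DP F k g)
    (hcop : ∀ p : MvPolynomial (Fin (m + 1)) ℂ, Prime p → ∃ i, ¬ p ∣ g i)
    (S : Fin (n + 1) → Fin (m + 1)) (i : Fin (n + 2)) :
    mv (Matrix.of fun (l : Fin (n + 1)) (i : Fin (n + 2)) => pderiv (S l) (g i)) i = 0 := by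
  obtain ⟨hgh, hg0, hgF, hgH⟩ := hg
  set M : Matrix (Fin (n + 1)) (Fin (n + 2)) (MvPolynomial (Fin (m + 1)) ℂ) :=
    Matrix.of fun (l : Fin (n + 1)) (i : Fin (n + 2)) => pderiv (S l) (g i) with hM
  let w : Fin (n + 2) → MvPolynomial (Fin (m + 1)) ℂ := fun i => aeval g (pderiv i F)
  have hw : ∀ l, ∑ i, M l i * w i = 0 := by
    intro l
    have h1 := derivation_aeval (pderiv (S l)) g F
    rw [hgF, map_zero] at h1
    rw [h1]
    apply Finset.sum_congr rfl
    intro i _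
    rw [smul_eq_mul, mul_comm]
    rfl
  have hwp : ∀ p : MvPolynomial (Fin (m + 1)) ℂ, Prime p → ∃ j, ¬ p ∣ w j := by
    intro p hp
    by_contra hcon
    push Not at hcon
    obtain ⟨j, hj⟩ := hcop p hp
    apply hj
    obtain ⟨N, hN⟩ := exists_pow_mem (by omega) F hF hs j
    have h1 : Ideal.span (Set.range (fun i => pderiv i F)) ≤
        (Ideal.span {p}).comap (aeval g : MvPolynomial (Fin (n + 2)) ℂ →ₐ[ℂ] _) := by
      rw [Ideal.span_le]
      rintro _ ⟨i, rfl⟩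
      rw [SetLike.mem_coe, Ideal.mem_comap, Ideal.mem_span_singleton]
      exact hcon i
    have h2 := h1 hN
    rw [Ideal.mem_comap, Ideal.mem_span_singleton, map_pow, aeval_X] at h2
    exact hp.dvd_of_dvd_pow h2
  obtain ⟨i0, hi0⟩ : ∃ i0, w i0 ≠ 0 := by
    obtain ⟨j, hj⟩ := hwp (X 0) (X_prime)
    exact ⟨j, fun h => hj (h ▸ dvd_zero _)⟩
  have hcomm := fun i j => mv_mul_comm M w hw i j
  have hdvd : w i0 ∣ mv M i0 := by
    apply dvd_of_forall_dvd_mul w hwp (w i0) hi0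
    intro j
    rw [mul_comm, ← hcomm i0 j]
    exact Dvd.intro_left _ rfl
  have hz : mv M i0 = 0 := by
    by_contra hne
    have hh1 : (mv M i0).IsHomogeneous ((n + 1) * (k - 1)) :=
      mv_isHomogeneous M (fun l i => (hgh i).pderiv) i0
    have hh2 : (w i0).IsHomogeneous (k * (d - 1)) := (hF.pderiv (i := i0)).aeval g hgh
    obtain ⟨q, hq⟩ := hdvd
    have hq0 : q ≠ 0 := by
      rintro rfl
      exact hne (by rw [hq, mul_zero])
    have h1 := totalDegree_mul_of_isDomain hi0 hq0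
    rw [← hq, hh1.totalDegree hne, hh2.totalDegree hi0] at h1
    have h2 : k * (n + 1) ≤ k * (d - 1) := Nat.mul_le_mul_left _ (by omega)
    have h3 : (n + 1) * (k - 1) < (n + 1) * k := Nat.mul_lt_mul_of_pos_left (by omega) (by omega)
    have h4 : (n + 1) * k = k * (n + 1) := mul_comm _ _
    omega
  have h5 := hcomm i0 i
  rw [hz, zero_mul] at h5
  exact (mul_eq_zero.mp h5).resolve_right hi0

end Pool.Agent.Work.MP_8f100c_ag
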