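import Mathlib
import Pool.Agent.Work.MP_8f100c_ag.Lower

namespace Pool.Agent.Work.MP_8f100c_ag

open MvPolynomial

/-- the projections of a dense parametrization are independent -/
theorem proj_algInd {n m d k : ℕ} (hd : 1 ≤ d) (hk : 1 ≤ k)
    (F : MvPolynomial (Fin (n + 2)) ℂ) (hF : F.IsHomogeneous d)
    (g : Fin (n + 2) → MvPolynomial (Fin (m + 1)) ℂ) (hg : DP F k g)
    (v : Fin (n + 2) → ℂ) (hv : eval v F ≠ 0) (i0 : Fin (n + 2)) (hi0 : v i0 = 1) :
    AlgebraicIndependent ℂ (fun l : Fin (n + 1) => g (i0.succAbove l) - C (v (i0.succAbove l)) * g i0) := by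
  obtain ⟨hgh, hg0, hgF, hgH⟩ := hg
  set f : Fin (n + 1) → MvPolynomial (Fin (m + 1)) ℂ :=
    fun l : Fin (n + 1) => g (i0.succAbove l) - C (v (i0.succAbove l)) * g i0 with hf
  have hfh : ∀ l, (f l).IsHomogeneous k := fun l => (hgh _).sub ((hgh i0).C_mul _)
  rw [algebraicIndependent_iff]
  intro P hP
  have hcomp : ∀ D, aeval f (homogeneousComponent D P) = 0 := by
    intro D
    have h1 := congrArg (homogeneousComponent (k * D)) hP
    rw [map_zero] at h1
    conv_lhs at h1 => rw [← sum_homogeneousComponent P]
    rw [map_sum, map_sum] at h1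
    have h2 : ∀ j, homogeneousComponent (k * D) (aeval f (homogeneousComponent j P))
        = if j = D then aeval f (homogeneousComponent j P) else 0 := by
      intro j
      have h3 : (aeval f (homogeneousComponent j P)).IsHomogeneous (k * j) :=
        (homogeneousComponent_isHomogeneous j P).aeval f hfh
      rw [homogeneousComponent_of_mem h3]
      by_cases hj : j = D
      · rw [if_pos hj, if_pos (by rw [hj])]
      · rw [if_neg hj, if_neg]
        intro h4
        exact hj (Nat.eq_of_mul_eq_mul_left hk h4).symm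
    rw [Finset.sum_congr rfl (fun j _ => h2 j), Finset.sum_ite_eq'] at h1
    split_ifs at h1 with h3
    · exact h1
    · rw [homogeneousComponent_eq_zero D P (by simp at h3; omega), map_zero]
  rw [← sum_homogeneousComponent P]
  apply Finset.sum_eq_zero
  intro D _
  set Q := homogeneousComponent D P with hQ
  have hQh : Q.IsHomogeneous D := homogeneousComponent_isHomogeneous D P
  let lf : Fin (n + 1) → MvPolynomial (Fin (n + 2)) ℂ :=
    fun l => X (i0.succAbove l) - C (v (i0.succAbove l)) * X i0
  have hlf : ∀ l, (lf l).IsHomogeneous 1 := fun l =>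
    (isHomogeneous_X _ _).sub (isHomogeneous_C_mul_X _ _)
  have hH : (aeval lf Q).IsHomogeneous D := by
    have := hQh.aeval lf hlf
    rwa [one_mul] at this
  have hgQ : aeval g (aeval lf Q) = 0 := by
    have h1 := comp_aeval_apply (R := ℂ) (f := lf) (aeval g : MvPolynomial (Fin (n + 2)) ℂ →ₐ[ℂ] _) Q
    rw [h1]
    have h2 : (fun l => (aeval g : MvPolynomial (Fin (n + 2)) ℂ →ₐ[ℂ] _) (lf l)) = f := by
      funext l
      simp [lf, hf]
    rw [h2]
    exact hcomp D
  have hne : ∀ y : Fin (n + 1) → ℂ, y ≠ 0 → eval y Q = 0 := by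
    intro y hy
    obtain ⟨s, hs⟩ := exists_root_line hd (i0.insertNth 0 y) v F hF hv
    set x : Fin (n + 2) → ℂ := fun i => (i0.insertNth 0 y : Fin (n + 2) → ℂ) i + s * v i with hx
    have hxi0 : x i0 = s := by
      simp [hx, hi0]
    have hxl : ∀ l, x (i0.succAbove l) - v (i0.succAbove l) * x i0 = y l := by
      intro l
      rw [hxi0]
      simp [hx]
      ring
    have hx0 : x ≠ 0 := by
      intro h
      apply hy
      funext l
      rw [← hxl l, h]
      simp
    have h1 := hgH D (aeval lf Q) hH hgQ x hx0 hs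
    rw [eval_aeval_eq] at h1
    have h2 : (fun l => eval x (lf l)) = y := by
      funext l
      rw [← hxl l]
      simp [lf]
    rwa [h2] at h1
  apply MvPolynomial.funext
  intro y
  rw [map_zero]
  by_cases hy : y = 0
  · rw [hy]
    apply eval_zero_of_isHomogeneous hQh (fun _ => 1)
    apply hne
    intro h
    exact one_ne_zero (congrFun h 0)
  · exact hne y hy

/-- lower bound, positive dimensional ambient space -/
theorem lower_aux {n m d : ℕ} (hd : n + 2 ≤ d) (F : MvPolynomial (Fin (n + 2)) ℂ)
    (hF : F.IsHomogeneous d) (hF0 : F ≠ 0) (hs : IsSmoothHyp F)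
    (hex : ∃ (k : ℕ) (g : Fin (n + 2) → MvPolynomial (Fin (m + 1)) ℂ), DP F k g) : False := by
  obtain ⟨k, g, hg, hcop⟩ := exists_coprime_DP F hF hex
  rcases Nat.eq_zero_or_pos k with hk | hk
  · -- constant parametrization
    subst hk
    obtain ⟨hgh, ⟨j0, hj0⟩, hgF, hgH⟩ := hg
    let c : Fin (n + 2) → ℂ := fun i => coeff 0 (g i)
    have hgc : ∀ i, g i = C (c i) := by
      intro i
      have h2 : (g i).totalDegree = 0 := Nat.le_zero.mp (hgh i).totalDegree_le
      rwa [totalDegree_eq_zero_iff_eq_C] at h2
    have hgA : ∀ H : MvPolynomial (Fin (n + 2)) ℂ, aeval g H = C (eval c H) := by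
      intro H
      have h1 : g = (algebraMap ℂ (MvPolynomial (Fin (m + 1)) ℂ)) ∘ c := funext hgc
      rw [h1, aeval_algebraMap_apply, aeval_eq_eval]
      rfl
    have hc : c ≠ 0 := by
      intro h
      apply hj0
      rw [hgc j0, h]
      simp
    have hFc : eval c F = 0 := by
      rw [hgA] at hgF
      exact C_injective _ _ (by rw [hgF, map_zero])
    apply const_case (by omega) F hF hF0 hs c hc hFc
    intro x hx hxF i j
    have h1 := hgH 1 (C (c j) * X i - C (c i) * X j)
      ((isHomogeneous_C_mul_X _ _).sub (isHomogeneous_C_mul_X _ _)) (by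
        rw [hgA]
        simp [mul_comm]) x hx hxF
    simp at h1
    linear_combination h1
  · have hmin := minors_zero hd hk F hF hs g hg hcop
    obtain ⟨v0, hv0⟩ : ∃ v0, eval v0 F ≠ 0 := by
      by_contra hcon
      push Not at hcon
      exact hF0 (MvPolynomial.funext (fun v => by rw [hcon v, map_zero]))
    have hv00 : v0 ≠ 0 := by
      intro h
      rw [h] at hv0
      exact hv0 (eval_zero_of_pos hF (by omega))
    obtain ⟨i0, hi0⟩ : ∃ i0, v0 i0 ≠ 0 := by
      by_contra hcon
      push Not at hcon
      exact hv00 (funext hcon)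
    obtain ⟨v, hvF, hvi0⟩ : ∃ v : Fin (n + 2) → ℂ, eval v F ≠ 0 ∧ v i0 = 1 := by
      refine ⟨fun i => (v0 i0)⁻¹ * v0 i, ?_, inv_mul_cancel₀ hi0⟩
      rw [eval_mul_of_isHomogeneous hF]
      exact mul_ne_zero (pow_ne_zero _ (inv_ne_zero hi0)) hv0
    have hind := proj_algInd (by omega) hk F hF g hg v hvF i0 hvi0
    set f : Fin (n + 1) → MvPolynomial (Fin (m + 1)) ℂ :=
      fun l : Fin (n + 1) => g (i0.succAbove l) - C (v (i0.succAbove l)) * g i0 with hf
    let L := FractionRing (MvPolynomial (Fin (m + 1)) ℂ)
    let φ := algebraMap (MvPolynomial (Fin (m + 1)) ℂ) L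
    have hc := fun l : Fin (n + 1) => exists_coeffs f hind L (Pi.single l 1)
    choose c hc using hc
    have hmv := mv_dir_zero g L hmin c
    set Mc : Matrix (Fin (n + 1)) (Fin (n + 2)) L := Matrix.of fun (l : Fin (n + 1)) (i : Fin (n + 2)) =>
      ∑ j, φ (pderiv j (g i)) * c l j with hMc
    have hφC : ∀ r : ℂ, φ (C r) = algebraMap ℂ L r := fun r =>
      (IsScalarTower.algebraMap_apply ℂ (MvPolynomial (Fin (m + 1)) ℂ) L r).symm
    have hrel : ∀ l a, Mc l (i0.succAbove a) - algebraMap ℂ L (v (i0.succAbove a)) * Mc l i0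
        = (Pi.single l 1 : Fin (n + 1) → L) a := by
      intro l a
      rw [← hc l a]
      simp only [hMc, Matrix.of_apply]
      rw [Finset.mul_sum, ← Finset.sum_sub_distrib]
      apply Finset.sum_congr rfl
      intro j _
      have h1 : pderiv j (f a) = pderiv j (g (i0.succAbove a)) - C (v (i0.succAbove a)) * pderiv j (g i0) := by
        rw [hf]
        simp only [map_sub]
        rw [pderiv_C_mul]
      rw [h1]
      change _ = φ _ * _
      rw [map_sub, map_mul, hφC]
      ring
    let N : Matrix (Fin (n + 2)) (Fin (n + 2)) L :=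
      Matrix.of (Fin.cons (fun i => algebraMap ℂ L (v i)) Mc : Fin (n + 2) → Fin (n + 2) → L)
    have hN : N.det = 0 := by
      rw [Matrix.det_succ_row_zero]
      apply Finset.sum_eq_zero
      intro j _
      have h2 : N.submatrix Fin.succ j.succAbove = Mc.submatrix id j.succAbove := by
        ext a b
        rfl
      rw [h2]
      have h3 := hmv j
      rw [mv] at h3
      linear_combination (N 0 j) * h3
    let Y : Matrix (Fin (n + 2)) (Fin (n + 2)) L := Matrix.of fun i j =>
      Fin.cases (if i = i0 then 1 else 0)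
        (fun l => (if i = i0.succAbove l then 1 else 0) - (if i = i0 then algebraMap ℂ L (v (i0.succAbove l)) else 0)) j
    have hNY0 : ∀ r : Fin (n + 2), (N * Y) r 0 = N r i0 := by
      intro r
      rw [Matrix.mul_apply]
      simp [Y]
    have hNYs : ∀ (r : Fin (n + 2)) (l : Fin (n + 1)), (N * Y) r l.succ
        = N r (i0.succAbove l) - algebraMap ℂ L (v (i0.succAbove l)) * N r i0 := by
      intro r l
      rw [Matrix.mul_apply]
      simp only [Y, Matrix.of_apply, Fin.cases_succ, mul_sub, Finset.sum_sub_distrib, mul_ite, mul_one,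
        mul_zero, Finset.sum_ite_eq', Finset.mem_univ, if_true]
      rw [mul_comm (N r i0)]
    have hdet : (N * Y).det = 1 := by
      rw [Matrix.det_of_isLowerTriangular]
      · apply Finset.prod_eq_one
        intro r _
        refine Fin.cases ?_ (fun l => ?_) r
        · rw [hNY0]
          change algebraMap ℂ L (v i0) = 1
          rw [hvi0, map_one]
        · rw [hNYs]
          change Mc l (i0.succAbove l) - algebraMap ℂ L (v (i0.succAbove l)) * Mc l i0 = 1
          rw [hrel]
          simp
      · intro r s hrs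
        have hrs' : r < s := hrs
        revert hrs'
        refine Fin.cases ?_ (fun l => ?_) s
        · intro h
          exact absurd h (Fin.not_lt_zero r)
        · refine Fin.cases ?_ (fun l' => ?_) r
          · intro _
            rw [hNYs]
            change algebraMap ℂ L (v (i0.succAbove l)) - algebraMap ℂ L (v (i0.succAbove l)) * algebraMap ℂ L (v i0) = 0
            rw [hvi0, map_one]
            ring
          · intro h
            rw [hNYs]
            change Mc l' (i0.succAbove l) - algebraMap ℂ L (v (i0.succAbove l)) * Mc l' i0 = 0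
            rw [hrel, Pi.single_eq_of_ne]
            intro h2
            rw [h2] at h
            exact lt_irrefl _ h
    rw [Matrix.det_mul, hN, zero_mul] at hdet
    exact zero_ne_one hdet

/-- the lower bound -/
theorem lower_bound {n d : ℕ} (hd : 1 ≤ d) (F : MvPolynomial (Fin (n + 1)) ℂ)
    (hF : F.IsHomogeneous d) (hF0 : F ≠ 0) (hs : IsSmoothHyp F) (hu : IsUnirationalHyp F) : d ≤ n := by
  by_contra hlt
  push Not at hlt
  obtain ⟨m, hex⟩ := exists_DP hd F hF hu
  cases n with
  | succ n => exact lower_aux (by omega) F hF hF0 hs hex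
  | zero =>
    obtain ⟨k, g, hgh, ⟨j0, hj0⟩, hgF, hgH⟩ := hex
    obtain ⟨t, ht⟩ : ∃ t, eval t (g j0) ≠ 0 := by
      by_contra hcon
      push Not at hcon
      exact hj0 (MvPolynomial.funext (fun v => by rw [hcon v, map_zero]))
    apply hF0
    apply MvPolynomial.funext
    intro y
    have h1 : eval (fun i => eval t (g i)) F = 0 := by
      rw [← eval_aeval_eq, hgF, map_zero]
    have h2 : y = fun i => (y 0 / eval t (g 0)) * eval t (g i) := by
      funext i
      have hi : i = 0 := Fin.ext (by have := i.isLt; simp only [Fin.val_zero]; omega)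
      have hj : j0 = 0 := Fin.ext (by have := j0.isLt; simp only [Fin.val_zero]; omega)
      rw [hj] at ht
      rw [hi]
      field_simp
    rw [h2, eval_mul_of_isHomogeneous hF, h1, mul_zero, map_zero]

end Pool.Agent.Work.MP_8f100c_ag
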