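import Mathlib
import Pool.Agent.Work.MP_8f100c_ag.Hom

namespace Pool.Agent.Work.MP_8f100c_ag

open MvPolynomial

theorem unirational_of_poly {n M d : ℕ} {F : MvPolynomial (Fin (n + 1)) ℂ} (hF : F.IsHomogeneous d)
    (p : Fin (n + 1) → MvPolynomial (Fin M) ℂ) (hp : ∃ i, p i ≠ 0) (h0 : aeval p F = 0)
    (hd : ∀ (D : ℕ) (H : MvPolynomial (Fin (n + 1)) ℂ), H.IsHomogeneous D → aeval p H = 0 →
      ∀ x : Fin (n + 1) → ℂ, eval x F = 0 → eval x H = 0) : IsUnirationalHyp F := by
  obtain ⟨k, g, hgh, hdeh⟩ : ∃ (k : ℕ) (g : Fin (n + 1) → MvPolynomial (Fin (M + 1)) ℂ),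
      (∀ i, (g i).IsHomogeneous k) ∧
      ∀ i, aeval (Fin.cons 1 X : Fin (M + 1) → MvPolynomial (Fin M) ℂ) (g i) = p i := by
    refine ⟨Finset.univ.sup (fun i => (p i).totalDegree),
      fun i => hgz (Finset.univ.sup (fun i => (p i).totalDegree)) (p i),
      fun i => hgz_isHomogeneous _ (p i), fun i => ?_⟩
    apply hgz_dehom
    exact Finset.le_sup (f := fun i => (p i).totalDegree) (Finset.mem_univ i)
  have hfun : (fun i => aeval (Fin.cons 1 X : Fin (M + 1) → MvPolynomial (Fin M) ℂ) (g i)) = p :=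
    funext hdeh
  have hcomp : ∀ H : MvPolynomial (Fin (n + 1)) ℂ,
      aeval (Fin.cons 1 X : Fin (M + 1) → MvPolynomial (Fin M) ℂ) (aeval g H) = aeval p H := by
    intro H
    have := comp_aeval_apply (R := ℂ) (f := g)
      (aeval (Fin.cons 1 X : Fin (M + 1) → MvPolynomial (Fin M) ℂ)) H
    rw [this, hfun]
  have hne : ∃ i, g i ≠ 0 := by
    obtain ⟨i, hi⟩ := hp
    refine ⟨i, fun h => hi ?_⟩
    rw [← hdeh i, h, map_zero]
  have hgF : aeval g F = 0 := by
    apply eq_zero_of_dehom (hF.aeval g (hgh))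
    rw [hcomp, h0]
  refine ⟨M, k, g, hgh, hne, ?_, ?_⟩
  · intro t _
    rw [← eval_aeval_eq, hgF, map_zero]
  · intro D H hH hv x _ hx
    refine hd D H hH ?_ x hx
    rw [← hcomp]
    have : aeval g H = 0 := by
      apply MvPolynomial.funext
      intro t
      rw [map_zero, eval_aeval_eq]
      by_cases ht : (fun i => eval t (g i)) = 0
      · obtain ⟨i, hi⟩ := hne
        have h1 : ∃ t0 : Fin (M + 1) → ℂ, eval t0 (g i) ≠ 0 := by
          by_contra hcon
          push Not at hcon
          apply hi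
          apply MvPolynomial.funext
          intro t0
          rw [hcon t0, map_zero]
        obtain ⟨t0, ht0⟩ := h1
        have h2 := hv t0 (fun h => ht0 (congrFun h i))
        have h3 := eval_mul_of_isHomogeneous hH (0 : ℂ) (fun i => eval t0 (g i))
        rw [h2, mul_zero] at h3
        rw [ht, ← h3]
        congr 2
        funext j
        simp
      · exact hv t ht
    rw [this, map_zero]

theorem unirational_of_field {n M d : ℕ} {F : MvPolynomial (Fin (n + 1)) ℂ} (hF : F.IsHomogeneous d)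
    {K : Type*} [Field K] [Algebra (MvPolynomial (Fin M) ℂ) K] [Algebra ℂ K]
    [IsScalarTower ℂ (MvPolynomial (Fin M) ℂ) K] [IsFractionRing (MvPolynomial (Fin M) ℂ) K]
    (x : Fin (n + 1) → K) (hp : ∃ i, x i ≠ 0) (h0 : aeval x F = 0)
    (hd : ∀ (D : ℕ) (H : MvPolynomial (Fin (n + 1)) ℂ), H.IsHomogeneous D → aeval x H = 0 →
      ∀ x : Fin (n + 1) → ℂ, eval x F = 0 → eval x H = 0) : IsUnirationalHyp F := by
  obtain ⟨b, hb⟩ := IsLocalization.exist_integer_multiples_of_finite
    (nonZeroDivisors (MvPolynomial (Fin M) ℂ)) x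
  choose p hp' using hb
  have hinj : Function.Injective (algebraMap (MvPolynomial (Fin M) ℂ) K) :=
    IsFractionRing.injective _ _
  have hb0 : algebraMap (MvPolynomial (Fin M) ℂ) K b ≠ 0 := by
    rw [Ne, map_eq_zero_iff _ hinj]
    exact nonZeroDivisors.ne_zero b.2
  have hpx : ∀ i, algebraMap (MvPolynomial (Fin M) ℂ) K (p i)
      = algebraMap (MvPolynomial (Fin M) ℂ) K b * x i := by
    intro i
    rw [hp' i, Algebra.smul_def]
  have hkey : ∀ (D : ℕ) (H : MvPolynomial (Fin (n + 1)) ℂ), H.IsHomogeneous D →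
      algebraMap (MvPolynomial (Fin M) ℂ) K (aeval p H)
        = (algebraMap (MvPolynomial (Fin M) ℂ) K b) ^ D * aeval x H := by
    intro D H hH
    rw [← aeval_mul_of_isHomogeneous hH]
    have := comp_aeval_apply (R := ℂ) (f := p) (IsScalarTower.toAlgHom ℂ (MvPolynomial (Fin M) ℂ) K) H
    simp only [IsScalarTower.coe_toAlgHom'] at this
    have hfun : (fun i => algebraMap (MvPolynomial (Fin M) ℂ) K (p i))
        = fun i => algebraMap (MvPolynomial (Fin M) ℂ) K b * x i := funext hpx
    rw [this, hfun]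
  apply unirational_of_poly hF p
  · obtain ⟨i, hi⟩ := hp
    refine ⟨i, fun h => hi ?_⟩
    have := hpx i
    rw [h, map_zero] at this
    exact (mul_eq_zero.mp this.symm).resolve_left hb0
  · apply hinj
    rw [hkey d F hF, h0, mul_zero, map_zero]
  · intro D H hH hpH
    apply hd D H hH
    have := hkey D H hH
    rw [hpH, map_zero] at this
    exact (mul_eq_zero.mp this.symm).resolve_left (pow_ne_zero _ hb0)

end Pool.Agent.Work.MP_8f100c_ag
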