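import Mathlib
import Pool.Agent.Work.MP_8f100c_ag.Uni

namespace Pool.Agent.Work.MP_8f100c_ag

open MvPolynomial

theorem eval₂_finSuccEquiv {n : ℕ} {K : Type*} [Field K] [Algebra ℂ K] (x : Fin (n + 1) → K)
    (G : MvPolynomial (Fin (n + 1)) ℂ) :
    Polynomial.eval₂ (aeval (fun j : Fin n => x j.succ) : MvPolynomial (Fin n) ℂ →ₐ[ℂ] K).toRingHom
      (x 0) (finSuccEquiv ℂ n G) = aeval x G := by
  have h : (Polynomial.eval₂RingHom
      (aeval (fun j : Fin n => x j.succ) : MvPolynomial (Fin n) ℂ →ₐ[ℂ] K).toRingHom (x 0)).comp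
      (finSuccEquiv ℂ n : MvPolynomial (Fin (n + 1)) ℂ →+* Polynomial (MvPolynomial (Fin n) ℂ))
      = (aeval x : MvPolynomial (Fin (n + 1)) ℂ →ₐ[ℂ] K).toRingHom := by
    apply MvPolynomial.ringHom_ext
    · intro r
      have h1 : (finSuccEquiv ℂ n) (C r) = Polynomial.C (C r) := (finSuccEquiv ℂ n).commutes r
      simp [h1]
    · intro i
      refine Fin.cases ?_ (fun l => ?_) i
      · simp [finSuccEquiv_X_zero]
      · simp [finSuccEquiv_X_succ]
  exact congrArg (fun φ => φ G) h

theorem dvd_of_aeval_eq_zero {n : ℕ} {K : Type*} [Field K] [Algebra ℂ K] (x : Fin (n + 1) → K)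
    (hx : AlgebraicIndependent ℂ (fun j : Fin n => x j.succ))
    (F H : MvPolynomial (Fin (n + 1)) ℂ) (hm : (finSuccEquiv ℂ n F).Monic)
    (hirr : Irreducible (finSuccEquiv ℂ n F)) (hF : aeval x F = 0) (hH : aeval x H = 0) : F ∣ H := by
  let ψ : MvPolynomial (Fin n) ℂ →+* K :=
    (aeval (fun j : Fin n => x j.succ) : MvPolynomial (Fin n) ℂ →ₐ[ℂ] K).toRingHom
  have hψ : Function.Injective ψ := hx
  let _ : Algebra (MvPolynomial (Fin n) ℂ) K := ψ.toAlgebra
  have htf : Module.IsTorsionFree (MvPolynomial (Fin n) ℂ) K := by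
    have : FaithfulSMul (MvPolynomial (Fin n) ℂ) K := (faithfulSMul_iff_algebraMap_injective _ _).mpr hψ
    infer_instance
  have h1 : Polynomial.aeval (x 0) (finSuccEquiv ℂ n F) = 0 := by
    rw [← hF, ← eval₂_finSuccEquiv x F]
    rfl
  have h2 : Polynomial.aeval (x 0) (finSuccEquiv ℂ n H) = 0 := by
    rw [← hH, ← eval₂_finSuccEquiv x H]
    rfl
  have hint : IsIntegral (MvPolynomial (Fin n) ℂ) (x 0) := ⟨finSuccEquiv ℂ n F, hm, h1⟩
  have h3 := minpoly.isIntegrallyClosed_dvd hint h1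
  have h4 := minpoly.isIntegrallyClosed_dvd hint h2
  obtain ⟨c, hc⟩ := h3
  have hc' : IsUnit c := (hirr.isUnit_or_isUnit hc).resolve_left (minpoly.not_isUnit _ _)
  have h5 : finSuccEquiv ℂ n F ∣ finSuccEquiv ℂ n H := by
    rw [hc]
    exact (hc'.mul_right_dvd).mpr h4
  exact (map_dvd_iff (finSuccEquiv ℂ n)).mp h5

/-- Eisenstein -/
theorem irr_aux (N : ℕ) (hN : 0 < N) :
    Irreducible (Polynomial.X ^ N + Polynomial.C (Polynomial.X : Polynomial ℂ) : Polynomial (Polynomial ℂ)) := by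
  have hmon : (Polynomial.X ^ N + Polynomial.C (Polynomial.X : Polynomial ℂ) : Polynomial (Polynomial ℂ)).Monic :=
    Polynomial.monic_X_pow_add_C _ hN.ne'
  have hdeg : (Polynomial.X ^ N + Polynomial.C (Polynomial.X : Polynomial ℂ) : Polynomial (Polynomial ℂ)).degree = N :=
    Polynomial.degree_X_pow_add_C hN _
  apply Polynomial.irreducible_of_eisenstein_criterion (P := Ideal.span {(Polynomial.X : Polynomial ℂ)})
  · rw [Ideal.span_singleton_prime Polynomial.X_ne_zero]
    exact Polynomial.prime_X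
  · rw [hmon.leadingCoeff]
    intro h
    rw [Ideal.mem_span_singleton] at h
    exact Polynomial.prime_X.not_isUnit (isUnit_of_dvd_one h)
  · intro n hn
    rw [hdeg] at hn
    have hn' : n < N := by exact_mod_cast hn
    rw [Polynomial.coeff_add, Polynomial.coeff_X_pow, if_neg (by omega), zero_add, Polynomial.coeff_C]
    split_ifs
    · exact Ideal.mem_span_singleton_self _
    · exact zero_mem _
  · rw [hdeg]
    exact_mod_cast hN
  · rw [Polynomial.coeff_add, Polynomial.coeff_X_pow, if_neg (by omega), zero_add, Polynomial.coeff_C_zero,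
      Ideal.span_singleton_pow, Ideal.mem_span_singleton]
    intro h
    rw [pow_two] at h
    have h1 := (mul_dvd_mul_iff_left (a := (Polynomial.X : Polynomial ℂ)) (b := Polynomial.X) (c := 1)
      Polynomial.X_ne_zero).mp (by simpa using h)
    exact Polynomial.prime_X.not_isUnit (isUnit_of_dvd_one h1)
  · exact hmon.isPrimitive

end Pool.Agent.Work.MP_8f100c_ag
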