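import Mathlib

namespace Pool.Agent.Work.MP_8f100c_ag

open AlgebraicIndependent

/-- closure of a family inside a field: elements algebraic over it, as an intermediate field -/
noncomputable def acl {L : Type*} [Field L] [Algebra ℂ L] (s : Set L) : 
    IntermediateField (IntermediateField.adjoin ℂ s) L := algebraicClosure (IntermediateField.adjoin ℂ s) L

open scoped IntermediateField.algebraAdjoinAdjoin in
theorem isAlgebraic_of_mem_acl {L : Type*} [Field L] [Algebra ℂ L] {s : Set L} {x : L} (h : x ∈ acl s) :
    IsAlgebraic (Algebra.adjoin ℂ s) x := by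
  rw [acl, mem_algebraicClosure_iff] at h
  exact (IsFractionRing.isAlgebraic_iff (Algebra.adjoin ℂ s) (IntermediateField.adjoin ℂ s) L).mpr h

open scoped IntermediateField.algebraAdjoinAdjoin in
theorem mem_acl_of_isAlgebraic {L : Type*} [Field L] [Algebra ℂ L] {s : Set L} {x : L}
    (h : IsAlgebraic (Algebra.adjoin ℂ s) x) : x ∈ acl s := by
  rw [acl, mem_algebraicClosure_iff]
  exact (IsFractionRing.isAlgebraic_iff (Algebra.adjoin ℂ s) (IntermediateField.adjoin ℂ s) L).mp h

theorem mem_acl_of_mem_adjoin {L : Type*} [Field L] [Algebra ℂ L] {s : Set L} {x : L}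
    (h : x ∈ Algebra.adjoin ℂ s) : x ∈ acl s :=
  mem_acl_of_isAlgebraic (isAlgebraic_algebraMap (⟨x, h⟩ : Algebra.adjoin ℂ s))

theorem subset_acl {L : Type*} [Field L] [Algebra ℂ L] {s : Set L} {x : L} (h : x ∈ s) : x ∈ acl s := by
  rw [acl, mem_algebraicClosure_iff]
  exact isAlgebraic_algebraMap (⟨x, IntermediateField.subset_adjoin ℂ s h⟩ : IntermediateField.adjoin ℂ s)

theorem algebraMap_mem_acl {L : Type*} [Field L] [Algebra ℂ L] {s : Set L} (x : ℂ) : algebraMap ℂ L x ∈ acl s := by
  rw [acl, mem_algebraicClosure_iff]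
  exact isAlgebraic_algebraMap (algebraMap ℂ (IntermediateField.adjoin ℂ s) x)

theorem mem_acl_of_pow {L : Type*} [Field L] [Algebra ℂ L] {s : Set L} {x : L} {n : ℕ} (hn : 0 < n) 
    (h : x ^ n ∈ acl s) : x ∈ acl s := by
  rw [acl, mem_algebraicClosure_iff] at h ⊢
  exact h.of_pow hn

theorem algInd_of_acl {L : Type*} [Field L] [Algebra ℂ L] {n : ℕ} (v w : Fin n → L)
    (hw : AlgebraicIndependent ℂ w)
    (h : ∀ i, w i ∈ acl (Set.range v)) : AlgebraicIndependent ℂ v := by
  classical
  set M := matroid ℂ L with hM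
  have hwi : M.Indep (Set.range w) := by
    rw [hM, matroid_indep_iff]
    exact hw.to_subtype_range
  have hsub : Set.range w ⊆ M.closure (Set.range v) := by
    rw [hM, matroid_closure_eq]
    rintro _ ⟨i, rfl⟩
    rw [SetLike.mem_coe, Subalgebra.mem_algebraicClosure]
    exact isAlgebraic_of_mem_acl (h i)
  have h1 : (Set.range w).encard ≤ M.eRk (Set.range v) := by
    rw [← Matroid.eRk_closure_eq]
    exact hwi.encard_le_eRk_of_subset hsub
  have h2 : (Set.range w).encard = n := by
    rw [← Set.image_univ, hw.injective.injOn.encard_image]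
    simp
  have h3 : (Set.range v).encard ≤ n := by
    rw [← Set.image_univ]
    refine (Set.encard_image_le _ _).trans ?_
    simp
  have h4 : M.eRk (Set.range v) ≤ (Set.range v).encard := M.eRk_le_encard _
  have h5 : (Set.range v).encard = n := le_antisymm h3 (h2 ▸ h1.trans h4)
  have h6 : M.eRk (Set.range v) = (Set.range v).encard := by
    apply le_antisymm h4
    rw [h5, ← h2]
    exact h1
  have h7 : M.Indep (Set.range v) := by
    rw [Matroid.indep_iff_eRk_eq_encard_of_finite (Set.finite_range v)]
    exact h6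
  have hinj : Function.Injective v := by
    have : Set.InjOn v Set.univ := by
      apply Set.Finite.injOn_of_encard_image_eq Set.finite_univ
      rw [Set.image_univ, h5]
      simp
    exact Set.injOn_univ.mp this
  rw [hM, matroid_indep_iff] at h7
  exact (algebraicIndependent_subtype_range hinj).mp h7

end Pool.Agent.Work.MP_8f100c_ag
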