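import Mathlib

namespace Pool.Agent.Work.MP_8f100c_ag

theorem algInd_of_lead {ι k A : Type*} [Field k] [CommRing A] [Algebra k A]
    (c : ι → A) (hc : AlgebraicIndependent k c) (N : ι → ℕ) (g : ι → Polynomial A)
    (hg : ∀ i, (g i).coeff 0 = c i) :
    AlgebraicIndependent k (fun i => (Polynomial.X : Polynomial A) ^ (N i) * g i) := by
  classical
  rw [algebraicIndependent_iff]
  intro P hP
  by_contra hne
  have hsupp : P.support.Nonempty := by
    rwa [Finset.nonempty_iff_ne_empty, Ne, MvPolynomial.support_eq_empty]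
  obtain ⟨α₀, hα₀, hmin⟩ := Finset.exists_min_image P.support (fun α => Finsupp.weight N α) hsupp
  set D := Finsupp.weight N α₀ with hD
  set P' := MvPolynomial.weightedHomogeneousComponent N D P with hP'
  have hP'ne : P' ≠ 0 := by
    intro h0
    have h1 : MvPolynomial.coeff α₀ P' = 0 := by rw [h0]; simp
    rw [hP', MvPolynomial.coeff_weightedHomogeneousComponent, if_pos rfl] at h1
    exact (MvPolynomial.mem_support_iff.mp hα₀) h1
  have hcP' : MvPolynomial.aeval c P' ≠ 0 := by
    intro h0
    exact hP'ne ((algebraicIndependent_iff.mp hc) P' h0)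
  apply hcP'
  have key : (MvPolynomial.aeval (fun i => (Polynomial.X : Polynomial A) ^ (N i) * g i) P).coeff D
      = MvPolynomial.aeval c P' := by
    rw [MvPolynomial.aeval_def, MvPolynomial.eval₂_eq, Polynomial.finsetSum_coeff]
    rw [hP', MvPolynomial.weightedHomogeneousComponent_apply, map_sum]
    rw [Finset.sum_filter]
    apply Finset.sum_congr rfl
    intro α hα
    have e1 : (∏ i ∈ α.support, ((Polynomial.X : Polynomial A) ^ (N i) * g i) ^ (α i))
        = Polynomial.X ^ (Finsupp.weight N α) * ∏ i ∈ α.support, (g i) ^ (α i) := by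
      simp_rw [mul_pow, Finset.prod_mul_distrib, ← pow_mul]
      rw [Finset.prod_pow_eq_pow_sum]
      congr 2
      rw [Finsupp.weight_apply, Finsupp.sum]
      apply Finset.sum_congr rfl
      intro i _
      simp [mul_comm]
    rw [e1]
    have e2 : ((algebraMap k (Polynomial A)) (MvPolynomial.coeff α P) *
        (Polynomial.X ^ (Finsupp.weight N α) * ∏ i ∈ α.support, (g i) ^ (α i)))
        = Polynomial.C (algebraMap k A (MvPolynomial.coeff α P)) *
        (Polynomial.X ^ (Finsupp.weight N α) * ∏ i ∈ α.support, (g i) ^ (α i)) := by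
      rfl
    rw [e2, Polynomial.coeff_C_mul, Polynomial.coeff_X_pow_mul']
    have hle : D ≤ Finsupp.weight N α := hmin α hα
    by_cases h : Finsupp.weight N α = D
    · rw [if_pos h.le, if_pos h, h, Nat.sub_self, Polynomial.coeff_zero_eq_eval_zero,
        Polynomial.eval_prod, MvPolynomial.aeval_monomial]
      congr 1
      rw [Finsupp.prod]
      apply Finset.prod_congr rfl
      intro i _
      rw [Polynomial.eval_pow, ← Polynomial.coeff_zero_eq_eval_zero, hg]
    · rw [if_neg h, if_neg, mul_zero]
      intro h'
      exact h (le_antisymm h' hle)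
  rw [← key, hP, Polynomial.coeff_zero]

theorem algInd_of_lead' {ι k A : Type*} [Field k] [CommRing A] [Algebra k A]
    (c : ι → A) (hc : AlgebraicIndependent k c) (a b : ι → ℕ) (f g : ι → Polynomial A)
    (hg : ∀ i, (g i).coeff 0 = c i)
    (h : ∀ i, (Polynomial.X : Polynomial A) ^ (a i) * f i = (Polynomial.X : Polynomial A) ^ (b i) * g i) :
    AlgebraicIndependent k f := by
  have hne : ∀ i, c i ≠ 0 := fun i => hc.ne_zero i
  have hab : ∀ i, a i ≤ b i := by
    intro i
    by_contra hlt
    push Not at hlt
    have := congrArg (fun p => Polynomial.coeff p (b i)) (h i)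
    simp only [Polynomial.coeff_X_pow_mul'] at this
    rw [if_neg (by omega), if_pos le_rfl, Nat.sub_self, hg] at this
    exact hne i this.symm
  have hf : f = fun i => (Polynomial.X : Polynomial A) ^ (b i - a i) * g i := by
    funext i
    have h1 := h i
    have h2 : (Polynomial.X : Polynomial A) ^ (b i) = Polynomial.X ^ (a i) * Polynomial.X ^ (b i - a i) := by
      rw [← pow_add, Nat.add_sub_cancel' (hab i)]
    rw [h2, mul_assoc] at h1
    exact (Polynomial.isRegular_X_pow (a i)).left h1
  rw [hf]
  exact algInd_of_lead c hc _ g hg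

end Pool.Agent.Work.MP_8f100c_ag
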