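import Mathlib
import Pool.Agent.Work.MP_8f100c_ag.Minors
import Pool.Agent.Work.MP_8f100c_ag.Exch
import Pool.Agent.Work.MP_8f100c_ag.Lead

namespace Pool.Agent.Work.MP_8f100c_ag

open Matrix Polynomial

section
variable {A : Type*} [CommRing A]

noncomputable def Rp (e : ℕ) (y : ℕ → A) : ℕ → Polynomial A
  | 0 => (X + C (y 0)) ^ e
  | (l + 1) => (X + C (y l)) * (X + C (y (l + 1))) ^ e

noncomputable def Bm (e : ℕ) (y : ℕ → A) : Matrix (Fin e) (Fin (e + 1)) A :=
  fun k i => (Rp e y i).coeff ((k : ℕ) + 2)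

noncomputable def sg (e : ℕ) (y : ℕ → A) (i : Fin (e + 1)) : A := mv (Bm e y) i

noncomputable def mu (e : ℕ) (y : ℕ → A) (i : Fin (e + 1)) : A := sg e y i * (Rp e y i).eval 0

theorem Bm_zero (e : ℕ) (y : ℕ → A) (k : Fin e) :
    Bm e y k 0 = y 0 ^ (e - ((k : ℕ) + 2)) * (e.choose ((k : ℕ) + 2) : A) := by
  simp [Bm, Rp, Polynomial.coeff_X_add_C_pow]

theorem Bm_succ (e : ℕ) (y : ℕ → A) (k l : Fin e) :
    Bm e y k l.succ = y (l + 1) ^ (e - ((k : ℕ) + 1)) * (e.choose ((k : ℕ) + 1) : A)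
      + y l * (y (l + 1) ^ (e - ((k : ℕ) + 2)) * (e.choose ((k : ℕ) + 2) : A)) := by
  simp only [Bm, Rp, Fin.val_succ]
  rw [add_mul, Polynomial.coeff_add, Polynomial.coeff_C_mul, Polynomial.coeff_X_mul,
    Polynomial.coeff_X_add_C_pow, Polynomial.coeff_X_add_C_pow]

theorem Rp_map {A' : Type*} [CommRing A'] (φ : A →+* A') (e : ℕ) (y : ℕ → A) (l : ℕ) :
    Rp e (fun j => φ (y j)) l = (Rp e y l).map φ := by
  cases l <;> simp [Rp]

theorem Bm_map {A' : Type*} [CommRing A'] (φ : A →+* A') (e : ℕ) (y : ℕ → A) :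
    Bm e (fun j => φ (y j)) = (Bm e y).map φ := by
  ext k i
  simp [Bm, Rp_map]

theorem sg_map {A' : Type*} [CommRing A'] (φ : A →+* A') (e : ℕ) (y : ℕ → A) (i : Fin (e + 1)) :
    sg e (fun j => φ (y j)) i = φ (sg e y i) := by
  rw [sg, Bm_map, mv_map, sg]

theorem mu_map {A' : Type*} [CommRing A'] (φ : A →+* A') (e : ℕ) (y : ℕ → A) (i : Fin (e + 1)) :
    mu e (fun j => φ (y j)) i = φ (mu e y i) := by
  rw [mu, sg_map, Rp_map, mu, map_mul, ← Polynomial.coeff_zero_eq_eval_zero,
    ← Polynomial.coeff_zero_eq_eval_zero, Polynomial.coeff_map]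

theorem natDegree_Rp_le (e : ℕ) (y : ℕ → A) (l : ℕ) : (Rp e y l).natDegree ≤ e + 1 := by
  have hlin : ∀ a : A, (X + C a : Polynomial A).natDegree ≤ 1 := by
    intro a
    compute_degree
  have h : ∀ a : A, ((X + C a) ^ e : Polynomial A).natDegree ≤ e := by
    intro a
    refine (Polynomial.natDegree_pow_le).trans ?_
    calc e * (X + C a).natDegree ≤ e * 1 := by
          apply Nat.mul_le_mul_left
          exact hlin a
      _ = e := by ring
  cases l with
  | zero => exact (h _).trans (by omega)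
  | succ l =>
    rw [Rp]
    refine (Polynomial.natDegree_mul_le).trans ?_
    have := hlin (y l)
    have := h (y (l + 1))
    omega

/-- the combination of the `R i` with coefficients the minors is linear in `t` -/
theorem sum_sg_Rp (e : ℕ) (y : ℕ → A) :
    ∑ i : Fin (e + 1), C (sg e y i) * Rp e y i
      = C (∑ i : Fin (e + 1), sg e y i * (Rp e y i).coeff 0)
        + C (∑ i : Fin (e + 1), sg e y i * (Rp e y i).coeff 1) * X := by
  ext n
  rw [Polynomial.finsetSum_coeff]
  simp only [Polynomial.coeff_C_mul, Polynomial.coeff_add]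
  match n with
  | 0 => simp
  | 1 => simp
  | (n + 2) =>
    simp only [Polynomial.coeff_C_succ, Polynomial.coeff_X, zero_add]
    rw [if_neg (by omega), mul_zero]
    by_cases hn : n < e
    · have := mv_ker (Bm e y) ⟨n, hn⟩
      rw [← this]
      apply Finset.sum_congr rfl
      intro i _
      rw [mul_comm]
      rfl
    · apply Finset.sum_eq_zero
      intro i _
      rw [Polynomial.coeff_eq_zero_of_natDegree_lt, mul_zero]
      have := natDegree_Rp_le e y i
      omega

end

end Pool.Agent.Work.MP_8f100c_ag
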