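import Mathlib
import Pool.Agent.Work.MP_8f100c_ag.Chain

namespace Pool.Agent.Work.MP_8f100c_ag

open Matrix Polynomial

/-- exponent `(l-k)(l-k+1)` -/
def ex (l k : ℕ) : ℕ := if k ≤ l then (l - k) * (l - k + 1) else (k - l) * (k - l - 1)

section
variable {A : Type*} [CommRing A]

/-- scaled matrix -/
noncomputable def Mh (E : ℕ) (z : ℕ → A) : Matrix (Fin (E + 2)) (Fin (E + 3)) (Polynomial A) :=
  fun k i => Fin.cases
    (C (z 0 ^ (E - (k : ℕ)) * ((E + 2).choose ((k : ℕ) + 2) : A)) * X ^ ((k : ℕ) * (k + 1)))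
    (fun l : Fin (E + 2) => X ^ (ex l k) * (if (k : ℕ) ≤ E then
      C (((E + 2).choose ((k : ℕ) + 2) : A) * z l * z (l + 1) ^ (E - (k : ℕ))) + X ^ 2 *
      C (((E + 2).choose ((k : ℕ) + 1) : A) * z (l + 1) ^ (E + 1 - (k : ℕ))) else 1)) i

/-- column exponents -/
def xs (E : ℕ) : Fin (E + 3) → ℕ := Fin.cases (E * (E + 3)) (fun l => (E + 1 - (l : ℕ)) * (E - l))

/-- row exponents -/
def ys (E : ℕ) (k : ℕ) : ℕ := E * (E + 3) - k * (k + 1)

theorem expo1 (E k : ℕ) (hk : k ≤ E) : ys E k + k * (k + 1) = E * (E + 3) := by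
  rw [ys, Nat.sub_add_cancel]
  nlinarith

theorem expo2 (E k l : ℕ) (hk : k ≤ E) (hl : l ≤ E + 1) :
    (E + 1 - l) * (E - l) + (2 * l + 2 * (l + 1) * (E - k)) = ys E k + ex l k := by
  have h1 := expo1 E k hk
  obtain ⟨a, ha⟩ := Nat.exists_eq_add_of_le hk
  subst ha
  have h2 : (k + a - k) = a := by omega
  rw [h2]
  have h3 : (ys (k + a) k : ℤ) = (k + a) * (k + a + 3) - k * (k + 1) := by
    have : ((ys (k + a) k + k * (k + 1) : ℕ) : ℤ) = (((k + a) * (k + a + 3) : ℕ) : ℤ) := by rw [h1]
    push_cast at this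
    linarith
  rcases Nat.lt_or_ge l k with hlk | hlk
  · obtain ⟨b, hb⟩ := Nat.exists_eq_add_of_lt hlk
    subst hb
    have h4 : ex l (l + b + 1) = (b + 1) * b := by
      rw [ex, if_neg (by omega)]
      have : l + b + 1 - l = b + 1 := by omega
      rw [this]
      simp
    rw [h4]
    have h5 : l + b + 1 + a + 1 - l = b + a + 2 := by omega
    have h6 : l + b + 1 + a - l = b + a + 1 := by omega
    rw [h5, h6]
    zify
    rw [h3]
    push_cast
    ring
  · obtain ⟨b, hb⟩ := Nat.exists_eq_add_of_le hlk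
    subst hb
    have h4 : ex (k + b) k = b * (b + 1) := by
      rw [ex, if_pos (by omega)]
      have : k + b - k = b := by omega
      rw [this]
    rw [h4]
    rcases Nat.lt_or_ge a b with hab | hab
    · have h7 : b = a + 1 := by omega
      subst h7
      have h5 : k + a + 1 - (k + (a + 1)) = 0 := by omega
      rw [h5]
      zify
      rw [h3]
      ring
    · obtain ⟨c, hc⟩ := Nat.exists_eq_add_of_le hab
      subst hc
      have h5 : k + (b + c) + 1 - (k + b) = c + 1 := by omega
      have h6 : k + (b + c) - (k + b) = c := by omega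
      rw [h5, h6]
      zify
      rw [h3]
      push_cast
      ring

theorem expo3 (E l : ℕ) (hl : l ≤ E + 1) : (E + 1 - l) * (E - l) = ex l (E + 1) := by
  rcases Nat.lt_or_ge l (E + 1) with h | h
  · rw [ex, if_neg (by omega)]
    congr 1
    omega
  · have : l = E + 1 := by omega
    subst this
    simp [ex]

theorem ys_last (E : ℕ) : ys E (E + 1) = 0 := by
  rw [ys]
  apply Nat.sub_eq_zero_of_le
  nlinarith

theorem scale_eq (E : ℕ) (z : ℕ → A) (k : Fin (E + 2)) (i : Fin (E + 3)) :
    (X : Polynomial A) ^ (xs E i) * Bm (E + 2) (fun j => C (z j) * X ^ (2 * j)) k i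
      = X ^ (ys E k) * Mh E z k i := by
  have hk2 : (k : ℕ) ≤ E + 1 := by omega
  refine Fin.cases ?_ (fun l => ?_) i
  · rw [Bm_zero]
    simp only [Mh, xs, Fin.cases_zero, mul_zero, pow_zero, mul_one]
    rcases Nat.lt_or_ge E k with h | h
    · have : (k : ℕ) = E + 1 := by omega
      rw [this]
      have h0 : (E + 2).choose (E + 1 + 2) = 0 := Nat.choose_eq_zero_of_lt (by omega)
      rw [h0]
      simp
    · rw [← expo1 E k h, pow_add]
      have : E + 2 - ((k : ℕ) + 2) = E - k := by omega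
      rw [this]
      simp only [map_mul, map_pow, map_natCast]
      ring
  · rw [Bm_succ]
    simp only [Mh, xs, Fin.cases_succ]
    have hl : (l : ℕ) ≤ E + 1 := by omega
    rcases Nat.lt_or_ge E k with h | h
    · have hk3 : (k : ℕ) = E + 1 := by omega
      rw [if_neg (by omega), hk3, ys_last, expo3 E l hl]
      have h0 : (E + 2).choose (E + 1 + 2) = 0 := Nat.choose_eq_zero_of_lt (by omega)
      have h1 : (E + 2) - (E + 1 + 1) = 0 := by omega
      rw [h0, h1]
      simp
    · rw [if_pos h]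
      have h1 : E + 2 - ((k : ℕ) + 2) = E - k := by omega
      have h2 : E + 2 - ((k : ℕ) + 1) = (E - k) + 1 := by omega
      have h3 : E + 1 - (k : ℕ) = (E - k) + 1 := by omega
      have hx : (X : Polynomial A) ^ (ys E k) * X ^ (ex l k)
          = X ^ ((E + 1 - (l : ℕ)) * (E - l)) * X ^ (2 * (l : ℕ) + 2 * (l + 1) * (E - k)) := by
        rw [← pow_add, ← pow_add, expo2 E k l h hl]
      rw [h1, h2, h3, ← mul_assoc (X ^ (ys E k)), hx]
      simp only [map_mul, map_pow, map_natCast]
      ring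

end

end Pool.Agent.Work.MP_8f100c_ag
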