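import Mathlib
import Pool.Agent.Work.MP_8f100c_ag.Trop

namespace Pool.Agent.Work.MP_8f100c_ag

open Matrix

section
variable {A : Type*} [CommRing A]

/-- matrix of constant terms -/
noncomputable def M0 (E : ℕ) (z : ℕ → A) : Matrix (Fin (E + 2)) (Fin (E + 3)) A :=
  (Mh E z).map (Polynomial.evalRingHom 0)

theorem ex_self (k : ℕ) : ex k k = 0 := by simp [ex]

theorem ex_succ (k : ℕ) : ex k (k + 1) = 0 := by simp [ex]

theorem ex_ne (l k : ℕ) (h1 : l ≠ k) (h2 : l + 1 ≠ k) : ex l k ≠ 0 := by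
  rw [ex]
  split_ifs with h
  · apply Nat.mul_ne_zero <;> omega
  · apply Nat.mul_ne_zero <;> omega

theorem M0_far (E : ℕ) (z : ℕ → A) (k : Fin (E + 2)) (i : Fin (E + 3))
    (h1 : i ≠ k.castSucc) (h2 : i ≠ k.succ) : M0 E z k i = 0 := by
  revert h1 h2
  refine Fin.cases ?_ (fun l => ?_) i
  · intro h1 _
    have hk : (k : ℕ) ≠ 0 := by
      intro h
      apply h1
      ext
      simp [h]
    have hk2 : (k : ℕ) * (k + 1) ≠ 0 := by
      apply Nat.mul_ne_zero hk; omega
    simp [M0, Mh, hk2]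
  · intro h1 h2
    have h3 : (l : ℕ) ≠ k := by
      intro h
      apply h2
      ext
      simp [h]
    have h4 : (l : ℕ) + 1 ≠ k := by
      intro h
      apply h1
      ext
      simp [h]
    have h5 := ex_ne l k h3 h4
    simp only [M0, Mh, Matrix.map_apply, Fin.cases_succ]
    split_ifs with h <;> simp [h5]

theorem M0_succ (E : ℕ) (z : ℕ → A) (k : Fin (E + 2)) :
    M0 E z k k.succ = if (k : ℕ) ≤ E then
      ((E + 2).choose ((k : ℕ) + 2) : A) * z k * z (k + 1) ^ (E - (k : ℕ)) else 1 := by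
  simp only [M0, Mh, Matrix.map_apply, Fin.cases_succ, ex_self]
  split_ifs with h <;> simp

theorem M0_castZero (E : ℕ) (z : ℕ → A) (k : Fin (E + 2)) (hk : (k : ℕ) = 0) :
    M0 E z k k.castSucc = ((E + 2).choose 2 : A) * z 0 ^ E := by
  have : k.castSucc = 0 := by ext; simpa using hk
  rw [this]
  simp [M0, Mh, hk]
  ring

theorem M0_castSucc (E : ℕ) (z : ℕ → A) (k : Fin (E + 2)) (l : ℕ) (hk : (k : ℕ) = l + 1) :
    M0 E z k k.castSucc = if (k : ℕ) ≤ E then
      ((E + 2).choose ((k : ℕ) + 2) : A) * z l * z k ^ (E - (k : ℕ)) else 1 := by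
  have hl : l < E + 2 := by omega
  have : k.castSucc = (⟨l, hl⟩ : Fin (E + 2)).succ := by
    ext; simpa using hk
  rw [this]
  simp only [M0, Mh, Matrix.map_apply, Fin.cases_succ, hk, ex_succ]
  split_ifs with h <;> simp

theorem mv_M0_zero (E : ℕ) (z : ℕ → A) :
    mv (M0 E z) 0 = ∏ k : Fin (E + 2), M0 E z k k.succ := by
  apply mv_zero_of_lower
  intro k l hkl
  apply M0_far
  · intro h
    have := congrArg Fin.val h
    simp at this
    have h2 : (k : ℕ) < l := hkl
    omega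
  · intro h
    have := Fin.succ_injective _ h
    subst this
    exact lt_irrefl _ hkl

theorem mv_M0_rec (E : ℕ) (z : ℕ → A) (k : Fin (E + 2)) :
    M0 E z k k.castSucc * mv (M0 E z) k.castSucc + M0 E z k k.succ * mv (M0 E z) k.succ = 0 :=
  mv_rec _ (fun k i h1 h2 => M0_far E z k i h1 h2) k

/-- the factor `R i (0)` without its power of tau -/
def W (E : ℕ) (z : ℕ → A) : ℕ → A
  | 0 => z 0 ^ (E + 2)
  | (l + 1) => z l * z (l + 1) ^ (E + 2)

end

section
variable {L : Type*} [Field L]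

theorem W_ne (E : ℕ) (z : ℕ → L) (hz : ∀ j, z j ≠ 0) (l : ℕ) : W E z l ≠ 0 := by
  cases l with
  | zero => exact pow_ne_zero _ (hz _)
  | succ l => exact mul_ne_zero (hz _) (pow_ne_zero _ (hz _))

/-- leading coefficients -/
noncomputable def lc (E : ℕ) (z : ℕ → L) (i : Fin (E + 3)) : L := mv (M0 E z) i * W E z i

theorem lc_rel_last (E : ℕ) (z : ℕ → L) :
    lc E z (Fin.last (E + 2)) * (z E * z (E + 1) ^ (E + 1))
      = - (lc E z (Fin.last (E + 1)).castSucc * z (E + 2) ^ (E + 2)) := by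
  have h1 := mv_M0_rec E z (Fin.last (E + 1))
  rw [M0_succ, if_neg (by simp), M0_castSucc E z _ E (by simp), if_neg (by simp)] at h1
  rw [lc, lc, Fin.val_last, Fin.val_castSucc, Fin.val_last]
  simp only [W]
  rw [show (Fin.last (E + 1)).succ = Fin.last (E + 2) from rfl] at h1
  linear_combination z E * z (E + 1) ^ (E + 2) * z (E + 2) ^ (E + 2) * h1

end

section
variable {L : Type*} [Field L] [CharZero L]

theorem M0_succ_ne (E : ℕ) (z : ℕ → L) (hz : ∀ j, z j ≠ 0) (k : Fin (E + 2)) :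
    M0 E z k k.succ ≠ 0 := by
  rw [M0_succ]
  split_ifs with h
  · have h1 : ((E + 2).choose ((k : ℕ) + 2) : L) ≠ 0 := by
      exact_mod_cast (Nat.choose_pos (by omega)).ne'
    exact mul_ne_zero (mul_ne_zero h1 (hz _)) (pow_ne_zero _ (hz _))
  · exact one_ne_zero

theorem M0_cast_ne (E : ℕ) (z : ℕ → L) (hz : ∀ j, z j ≠ 0) (k : Fin (E + 2)) :
    M0 E z k k.castSucc ≠ 0 := by
  rcases Nat.eq_zero_or_pos (k : ℕ) with h | h
  · rw [M0_castZero E z k h]
    have h1 : ((E + 2).choose 2 : L) ≠ 0 := by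
      exact_mod_cast (Nat.choose_pos (by omega)).ne'
    exact mul_ne_zero h1 (pow_ne_zero _ (hz _))
  · obtain ⟨l, hl⟩ := Nat.exists_eq_add_of_lt h
    rw [M0_castSucc E z k l (by omega)]
    split_ifs with h
    · have h1 : ((E + 2).choose ((k : ℕ) + 2) : L) ≠ 0 := by
        exact_mod_cast (Nat.choose_pos (by omega)).ne'
      exact mul_ne_zero (mul_ne_zero h1 (hz _)) (pow_ne_zero _ (hz _))
    · exact one_ne_zero

theorem mv_M0_ne (E : ℕ) (z : ℕ → L) (hz : ∀ j, z j ≠ 0) (i : Fin (E + 3)) :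
    mv (M0 E z) i ≠ 0 := by
  induction i using Fin.induction with
  | zero =>
    rw [mv_M0_zero]
    exact Finset.prod_ne_zero_iff.mpr (fun k _ => M0_succ_ne E z hz k)
  | succ k ih =>
    intro h
    have h1 := mv_M0_rec E z k
    rw [h, mul_zero, add_zero] at h1
    rcases mul_eq_zero.mp h1 with h2 | h2
    · exact M0_cast_ne E z hz k h2
    · exact ih h2

theorem lc_ne (E : ℕ) (z : ℕ → L) (hz : ∀ j, z j ≠ 0) (i : Fin (E + 3)) : lc E z i ≠ 0 :=
  mul_ne_zero (mv_M0_ne E z hz i) (W_ne E z hz i)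

theorem lc_rel (E : ℕ) (z : ℕ → L) (k : Fin (E + 2)) (hk : (k : ℕ) ≤ E) :
    lc E z k.succ * z k ^ ((k : ℕ) + 2) = - (lc E z k.castSucc * z (k + 1) ^ ((k : ℕ) + 2)) := by
  have h1 := mv_M0_rec E z k
  have hch : ((E + 2).choose ((k : ℕ) + 2) : L) ≠ 0 := by
    exact_mod_cast (Nat.choose_pos (by omega)).ne'
  rw [M0_succ, if_pos hk] at h1
  rw [lc, lc, Fin.val_succ, Fin.val_castSucc]
  rcases Nat.eq_zero_or_pos (k : ℕ) with h | h
  · rw [M0_castZero E z k h] at h1
    rw [h] at h1 hch ⊢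
    simp only [W, Nat.sub_zero, zero_add] at h1 ⊢
    have h2 : z 0 ^ E * mv (M0 E z) k.castSucc + z 0 * z 1 ^ E * mv (M0 E z) k.succ = 0 := by
      apply mul_left_cancel₀ hch
      linear_combination h1
    linear_combination z 0 ^ 2 * z 1 ^ 2 * h2
  · obtain ⟨l, hl⟩ := Nat.exists_eq_add_of_lt h
    have hl' : (k : ℕ) = l + 1 := by omega
    rw [M0_castSucc E z k l hl', if_pos hk] at h1
    have h2 : z l * z k ^ (E - (k : ℕ)) * mv (M0 E z) k.castSucc
        + z k * z (k + 1) ^ (E - (k : ℕ)) * mv (M0 E z) k.succ = 0 := by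
      apply mul_left_cancel₀ hch
      linear_combination h1
    have hE : E + 2 = (E - (k : ℕ)) + (k + 2) := by omega
    have hW1 : W E z ((k : ℕ) + 1) = z k * (z (k + 1) ^ (E - (k : ℕ)) * z (k + 1) ^ ((k : ℕ) + 2)) := by
      rw [W, ← pow_add, ← hE]
    have hW2 : W E z (k : ℕ) = z l * (z k ^ (E - (k : ℕ)) * z k ^ ((k : ℕ) + 2)) := by
      rw [← pow_add, ← hE, hl', W]
    rw [hW1, hW2]
    linear_combination z k ^ ((k : ℕ) + 2) * z (k + 1) ^ ((k : ℕ) + 2) * h2

end

section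
variable {L : Type*} [Field L] [Algebra ℂ L]

theorem ratio_mem (E : ℕ) (z : ℕ → L) (hz : ∀ j, z j ≠ 0) (j : ℕ) (hj : j ≤ E + 1) :
    z j / z 0 ∈ acl (Set.range (lc E z)) := by
  have : CharZero L := charZero_of_injective_algebraMap (algebraMap ℂ L).injective
  induction j with
  | zero =>
    rw [div_self (hz 0)]
    exact one_mem _
  | succ j ih =>
    have ih' := ih (by omega)
    have hrel := lc_rel E z ⟨j, by omega⟩ (by simpa using hj)
    simp only at hrel
    set a := lc E z (⟨j, by omega⟩ : Fin (E + 2)).succ with ha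
    set b := lc E z (⟨j, by omega⟩ : Fin (E + 2)).castSucc with hb
    have ha0 : a ≠ 0 := lc_ne E z hz _
    have hb0 : b ≠ 0 := lc_ne E z hz _
    have ham : a ∈ acl (Set.range (lc E z)) := subset_acl ⟨_, rfl⟩
    have hbm : b ∈ acl (Set.range (lc E z)) := subset_acl ⟨_, rfl⟩
    apply mem_acl_of_pow (n := j + 2) (by omega)
    have h0 := hz 0
    have : (z (j + 1) / z 0) ^ (j + 2) = - (a / b) * (z j / z 0) ^ (j + 2) := by
      rw [div_pow, div_pow]
      field_simp
      linear_combination hrel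
    rw [this]
    exact mul_mem (neg_mem (div_mem ham hbm)) (pow_mem ih' _)

theorem ratio_mem_last (E : ℕ) (z : ℕ → L) (hz : ∀ j, z j ≠ 0) :
    z (E + 2) / z 0 ∈ acl (Set.range (lc E z)) := by
  have : CharZero L := charZero_of_injective_algebraMap (algebraMap ℂ L).injective
  have hrel := lc_rel_last E z
  set a := lc E z (Fin.last (E + 2)) with ha
  set b := lc E z (Fin.last (E + 1)).castSucc with hb
  have ha0 : a ≠ 0 := lc_ne E z hz _
  have hb0 : b ≠ 0 := lc_ne E z hz _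
  have ham : a ∈ acl (Set.range (lc E z)) := subset_acl ⟨_, rfl⟩
  have hbm : b ∈ acl (Set.range (lc E z)) := subset_acl ⟨_, rfl⟩
  apply mem_acl_of_pow (n := E + 2) (by omega)
  have h0 := hz 0
  have : (z (E + 2) / z 0) ^ (E + 2) = - (a / b) * ((z E / z 0) * (z (E + 1) / z 0) ^ (E + 1)) := by
    rw [div_pow, div_pow, pow_succ' (z 0) (E + 1)]
    field_simp
    linear_combination hrel
  rw [this]
  exact mul_mem (neg_mem (div_mem ham hbm)) (mul_mem (ratio_mem E z hz E (by omega))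
    (pow_mem (ratio_mem E z hz (E + 1) (by omega)) _))

theorem zero_mem_acl (E : ℕ) (z : ℕ → L) (hz : ∀ j, z j ≠ 0) :
    z 0 ∈ acl (Set.range (lc E z)) := by
  have : CharZero L := charZero_of_injective_algebraMap (algebraMap ℂ L).injective
  have hQ : ∀ k : Fin (E + 2), ∃ q ∈ acl (Set.range (lc E z)), q ≠ 0 ∧ ∃ D : ℕ,
      M0 E z k k.succ = q * z 0 ^ D := by
    intro k
    rw [M0_succ]
    split_ifs with hk
    · have h1 := ratio_mem E z hz k (by omega)
      have h2 := ratio_mem E z hz (k + 1) (by omega)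
      have hch : ((E + 2).choose ((k : ℕ) + 2) : L) ≠ 0 := by
        exact_mod_cast (Nat.choose_pos (by omega)).ne'
      refine ⟨((E + 2).choose ((k : ℕ) + 2) : L) * (z k / z 0) * (z (k + 1) / z 0) ^ (E - (k : ℕ)),
        mul_mem (mul_mem (natCast_mem _ _) h1) (pow_mem h2 _), ?_, (E - (k : ℕ)) + 1, ?_⟩
      · exact mul_ne_zero (mul_ne_zero hch (div_ne_zero (hz _) (hz _)))
          (pow_ne_zero _ (div_ne_zero (hz _) (hz _)))
      · have h0 := hz 0
        rw [div_pow, pow_succ]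
        field_simp
    · exact ⟨1, one_mem _, one_ne_zero, 0, by simp⟩
  choose q hq hq0 D hD using hQ
  have h1 : lc E z 0 = (∏ k, q k) * z 0 ^ ((∑ k, D k) + (E + 2)) := by
    rw [lc, mv_M0_zero, Finset.prod_congr rfl (fun k _ => hD k), Finset.prod_mul_distrib,
      Finset.prod_pow_eq_pow_sum]
    simp only [W, Fin.val_zero]
    rw [pow_add]
    ring
  have h2 : (∏ k, q k) ≠ 0 := Finset.prod_ne_zero_iff.mpr (fun k _ => hq0 k)
  apply mem_acl_of_pow (n := (∑ k, D k) + (E + 2)) (by omega)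
  have h3 : z 0 ^ ((∑ k, D k) + (E + 2)) = lc E z 0 / (∏ k, q k) := by
    rw [h1]
    field_simp
  rw [h3]
  exact div_mem (subset_acl ⟨_, rfl⟩) (prod_mem (fun k _ => hq k))

theorem all_mem_acl (E : ℕ) (z : ℕ → L) (hz : ∀ j, z j ≠ 0) (j : ℕ) (hj : j ≤ E + 2) :
    z j ∈ acl (Set.range (lc E z)) := by
  have h0 := zero_mem_acl E z hz
  have h1 : z j / z 0 ∈ acl (Set.range (lc E z)) := by
    rcases Nat.lt_or_ge j (E + 2) with h | h
    · exact ratio_mem E z hz j (by omega)
    · have : j = E + 2 := by omega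
      subst this
      exact ratio_mem_last E z hz
  have h2 : z j = z j / z 0 * z 0 := by
    rw [div_mul_cancel₀ _ (hz 0)]
  rw [h2]
  exact mul_mem h1 h0

theorem lc_algInd (E : ℕ) (z : ℕ → L) (hz : ∀ j, z j ≠ 0)
    (hi : AlgebraicIndependent ℂ (fun j : Fin (E + 3) => z j)) :
    AlgebraicIndependent ℂ (lc E z) :=
  algInd_of_acl _ _ hi (fun i => all_mem_acl E z hz i (by omega))

end

end Pool.Agent.Work.MP_8f100c_ag
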