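import Mathlib
import Pool.Agent.Work.MP_8f100c_ag.Trop2

namespace Pool.Agent.Work.MP_8f100c_ag

open Matrix

section
variable {A : Type*} [CommRing A]

theorem M0_map {A' : Type*} [CommRing A'] (φ : A →+* A') (E : ℕ) (z : ℕ → A) :
    M0 E (fun j => φ (z j)) = (M0 E z).map φ := by
  ext k i
  refine Fin.cases ?_ (fun l => ?_) i
  · simp [M0, Mh]
  · simp only [M0, Mh, Matrix.map_apply, Fin.cases_succ]
    split_ifs <;> simp

theorem W_map {A' : Type*} [CommRing A'] (φ : A →+* A') (E : ℕ) (z : ℕ → A) (l : ℕ) :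
    W E (fun j => φ (z j)) l = φ (W E z l) := by
  cases l <;> simp [W]

theorem Rp_congr (e : ℕ) (y y' : ℕ → A) (h : ∀ j ≤ e, y j = y' j) (l : ℕ) (hl : l ≤ e) :
    Rp e y l = Rp e y' l := by
  cases l with
  | zero => simp [Rp, h 0 (by omega)]
  | succ l => simp [Rp, h l (by omega), h (l + 1) (by omega)]

theorem sg_congr (e : ℕ) (y y' : ℕ → A) (h : ∀ j ≤ e, y j = y' j) (i : Fin (e + 1)) :
    sg e y i = sg e y' i := by
  have : Bm e y = Bm e y' := by
    ext k i
    rw [Bm, Bm, Rp_congr e y y' h i (by omega)]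
  rw [sg, sg, this]

theorem mu_congr (e : ℕ) (y y' : ℕ → A) (h : ∀ j ≤ e, y j = y' j) (i : Fin (e + 1)) :
    mu e y i = mu e y' i := by
  rw [mu, mu, Rp_congr e y y' h i (by omega), sg_congr e y y' h i]

theorem Rp_eval_zero (E : ℕ) (z : ℕ → A) (l : ℕ) :
    (Rp (E + 2) (fun j => Polynomial.C (z j) * Polynomial.X ^ (2 * j)) l).eval 0
      = Polynomial.C (W E z l) * Polynomial.X ^
        (match l with | 0 => 0 | (l + 1) => 2 * l + 2 * (l + 1) * (E + 2)) := by
  cases l with
  | zero => simp [Rp, W]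
  | succ l =>
    simp only [Rp, W, Polynomial.eval_mul, Polynomial.eval_pow, Polynomial.eval_add,
      Polynomial.eval_X, Polynomial.eval_C, zero_add, map_mul, map_pow]
    ring

end

/-- the variables, extended by one -/
noncomputable def zv (E : ℕ) (j : ℕ) : MvPolynomial (Fin (E + 3)) ℂ :=
  if h : j < E + 3 then MvPolynomial.X ⟨j, h⟩ else 1

theorem zv_ne (E j : ℕ) : zv E j ≠ 0 := by
  rw [zv]
  split_ifs
  · exact MvPolynomial.X_ne_zero _
  · exact one_ne_zero

theorem lc_zv_algInd (E : ℕ) :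
    AlgebraicIndependent ℂ (fun i => mv (M0 E (zv E)) i * W E (zv E) i) := by
  let L := FractionRing (MvPolynomial (Fin (E + 3)) ℂ)
  let φ : MvPolynomial (Fin (E + 3)) ℂ →ₐ[ℂ] L := IsScalarTower.toAlgHom ℂ _ L
  have hφ : Function.Injective φ := IsFractionRing.injective (MvPolynomial (Fin (E + 3)) ℂ) L
  apply AlgebraicIndependent.of_comp φ
  have h1 := lc_algInd E (fun j => φ (zv E j))
    (fun j => by
      rw [Ne, map_eq_zero_iff φ hφ]
      exact zv_ne E j)
    (by
      have : (fun j : Fin (E + 3) => φ (zv E j)) = φ ∘ MvPolynomial.X := by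
        funext j
        simp [zv]
      rw [this]
      exact (MvPolynomial.algebraicIndependent_X (Fin (E + 3)) ℂ).map' hφ)
  have h2 : lc E (fun j => φ (zv E j)) = φ ∘ (fun i => mv (M0 E (zv E)) i * W E (zv E) i) := by
    funext i
    rw [lc]
    have := M0_map (φ : MvPolynomial (Fin (E + 3)) ℂ →+* L) E (zv E)
    have h3 := W_map (φ : MvPolynomial (Fin (E + 3)) ℂ →+* L) E (zv E) i
    simp only [RingHom.coe_coe] at this h3
    rw [this, h3]
    have h4 := mv_map (φ : MvPolynomial (Fin (E + 3)) ℂ →+* L) (M0 E (zv E)) i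
    simp only [RingHom.coe_coe] at h4
    rw [h4]
    simp
  rw [← h2]
  exact h1

theorem mu_zv_algInd (E : ℕ) : AlgebraicIndependent ℂ (mu (E + 2) (zv E)) := by
  set A := MvPolynomial (Fin (E + 3)) ℂ with hA
  let Ψ : A →ₐ[ℂ] Polynomial A :=
    MvPolynomial.aeval (fun j : Fin (E + 3) => Polynomial.C (MvPolynomial.X j) * Polynomial.X ^ (2 * (j : ℕ)))
  apply AlgebraicIndependent.of_comp Ψ
  have h1 : (Ψ ∘ mu (E + 2) (zv E))
      = mu (E + 2) (fun j => Polynomial.C (zv E j) * Polynomial.X ^ (2 * j)) := by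
    funext i
    have := mu_map (Ψ : A →+* Polynomial A) (E + 2) (zv E) i
    simp only [RingHom.coe_coe] at this
    rw [Function.comp_apply, ← this]
    apply mu_congr
    intro j hj
    change Ψ (zv E j) = Polynomial.C (zv E j) * Polynomial.X ^ (2 * j)
    rw [zv, dif_pos (show j < E + 3 by omega)]
    exact MvPolynomial.aeval_X _ _
  rw [h1]
  refine algInd_of_lead' _ (lc_zv_algInd E) (fun _ => ∑ j, xs E j)
    (fun i => xs E i + ((∑ k : Fin (E + 2), ys E k) +
      (match (i : ℕ) with | 0 => 0 | (l + 1) => 2 * l + 2 * (l + 1) * (E + 2))))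
    _ (fun i => mv (Mh E (zv E)) i * Polynomial.C (W E (zv E) i)) ?_ ?_
  · intro i
    rw [Polynomial.coeff_zero_eq_eval_zero, Polynomial.eval_mul, Polynomial.eval_C, M0]
    rw [mv_map]
    rfl
  · intro i
    have h2 := mv_scale (Bm (E + 2) (fun j => Polynomial.C (zv E j) * Polynomial.X ^ (2 * j)))
      (Mh E (zv E)) (fun i => (Polynomial.X : Polynomial A) ^ (xs E i))
      (fun k => (Polynomial.X : Polynomial A) ^ (ys E k)) (fun k i => scale_eq E (zv E) k i) i
    rw [Finset.prod_pow_eq_pow_sum, Finset.prod_pow_eq_pow_sum] at h2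
    rw [mu, sg, Rp_eval_zero, pow_add, pow_add]
    linear_combination (Polynomial.C (W E (zv E) i) * Polynomial.X ^
        (match (i : ℕ) with | 0 => 0 | (l + 1) => 2 * l + 2 * (l + 1) * (E + 2))) * h2

end Pool.Agent.Work.MP_8f100c_ag
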