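import Mathlib
import Pool.Agent.Work.MP_8f100c_ag.Mu

namespace Pool.Agent.Work.MP_8f100c_ag

open Matrix

section
variable {A : Type*} [CommRing A]

/-- the linear coefficient of the combination -/
noncomputable def rho1 (e : ℕ) (y : ℕ → A) : A := ∑ i : Fin (e + 1), sg e y i * (Rp e y i).coeff 1

noncomputable def rho0 (e : ℕ) (y : ℕ → A) : A := ∑ i : Fin (e + 1), sg e y i * (Rp e y i).coeff 0

theorem rho1_map {A' : Type*} [CommRing A'] (φ : A →+* A') (e : ℕ) (y : ℕ → A) :
    rho1 e (fun j => φ (y j)) = φ (rho1 e y) := by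
  rw [rho1, rho1, map_sum]
  apply Finset.sum_congr rfl
  intro i _
  rw [sg_map, Rp_map, map_mul, Polynomial.coeff_map]

theorem rho0_map {A' : Type*} [CommRing A'] (φ : A →+* A') (e : ℕ) (y : ℕ → A) :
    rho0 e (fun j => φ (y j)) = φ (rho0 e y) := by
  rw [rho0, rho0, map_sum]
  apply Finset.sum_congr rfl
  intro i _
  rw [sg_map, Rp_map, map_mul, Polynomial.coeff_map]

theorem rho1_congr (e : ℕ) (y y' : ℕ → A) (h : ∀ j ≤ e, y j = y' j) :
    rho1 e y = rho1 e y' := by
  apply Finset.sum_congr rfl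
  intro i _
  rw [Rp_congr e y y' h i (by omega), sg_congr e y y' h i]

theorem rho0_congr (e : ℕ) (y y' : ℕ → A) (h : ∀ j ≤ e, y j = y' j) :
    rho0 e y = rho0 e y' := by
  apply Finset.sum_congr rfl
  intro i _
  rw [Rp_congr e y y' h i (by omega), sg_congr e y y' h i]

theorem expo4 (E l : ℕ) (hl : l ≤ E + 1) :
    (E + 1 - l) * (E - l) + (2 * l + 2 * (l + 1) * (E + 1)) = E * (E + 3) + (l + 1) * (l + 2) := by
  rcases Nat.lt_or_ge E l with h | h
  · have : l = E + 1 := by omega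
    subst this
    simp
    ring
  · obtain ⟨b, hb⟩ := Nat.exists_eq_add_of_le h
    subst hb
    have h1 : l + b + 1 - l = b + 1 := by omega
    have h2 : l + b - l = b := by omega
    rw [h1, h2]
    ring

theorem coeff_one_zero (E : ℕ) (z : ℕ → A) :
    (Rp (E + 2) (fun j => Polynomial.C (z j) * Polynomial.X ^ (2 * j)) 0).coeff 1
      = Polynomial.C (((E + 2 : ℕ) : A) * z 0 ^ (E + 1)) := by
  simp [Rp, Polynomial.coeff_X_add_C_pow, map_ofNat]
  ring

theorem coeff_one_succ (E : ℕ) (z : ℕ → A) (l : ℕ) :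
    (Rp (E + 2) (fun j => Polynomial.C (z j) * Polynomial.X ^ (2 * j)) (l + 1)).coeff 1
      = Polynomial.X ^ (2 * l + 2 * (l + 1) * (E + 1)) *
        (Polynomial.C (((E + 2 : ℕ) : A) * z l * z (l + 1) ^ (E + 1))
          + Polynomial.X ^ 2 * Polynomial.C (z (l + 1) ^ (E + 2))) := by
  rw [Rp, add_mul, Polynomial.coeff_add, Polynomial.coeff_C_mul,
    show (1 : ℕ) = 0 + 1 from rfl, Polynomial.coeff_X_mul,
    Polynomial.coeff_X_add_C_pow, Polynomial.coeff_X_add_C_pow]
  simp [map_ofNat]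
  ring

end

theorem rho1_zv_ne (E : ℕ) : rho1 (E + 2) (zv E) ≠ 0 := by
  set A := MvPolynomial (Fin (E + 3)) ℂ with hA
  let Ψ : A →ₐ[ℂ] Polynomial A :=
    MvPolynomial.aeval (fun j : Fin (E + 3) => Polynomial.C (MvPolynomial.X j) * Polynomial.X ^ (2 * (j : ℕ)))
  intro h0
  have h1 : rho1 (E + 2) (fun j => Polynomial.C (zv E j) * Polynomial.X ^ (2 * j)) = 0 := by
    have := rho1_map (Ψ : A →+* Polynomial A) (E + 2) (zv E)
    simp only [RingHom.coe_coe] at this
    rw [h0, map_zero] at this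
    rw [← this]
    apply rho1_congr
    intro j hj
    change Polynomial.C (zv E j) * Polynomial.X ^ (2 * j) = Ψ (zv E j)
    rw [zv, dif_pos (show j < E + 3 by omega)]
    symm
    exact MvPolynomial.aeval_X _ _
  have h2 := mv_scale (Bm (E + 2) (fun j => Polynomial.C (zv E j) * Polynomial.X ^ (2 * j)))
      (Mh E (zv E)) (fun i => (Polynomial.X : Polynomial A) ^ (xs E i))
      (fun k => (Polynomial.X : Polynomial A) ^ (ys E k)) (fun k i => scale_eq E (zv E) k i)
  rw [rho1] at h1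
  have h3 := congrArg (fun p => (∏ j, (Polynomial.X : Polynomial A) ^ (xs E j)) * p) h1
  simp only [mul_zero, Finset.mul_sum, ← mul_assoc, sg, h2] at h3
  rw [Fin.sum_univ_succ] at h3
  simp only [Fin.val_zero, Fin.val_succ, coeff_one_zero, coeff_one_succ] at h3
  have h4 : ∀ l : Fin (E + 2), (Polynomial.X : Polynomial A) ^ (xs E l.succ) *
      (∏ k : Fin (E + 2), Polynomial.X ^ ys E k) * mv (Mh E (zv E)) l.succ *
      (Polynomial.X ^ (2 * (l : ℕ) + 2 * (l + 1) * (E + 1)) *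
        (Polynomial.C (((E + 2 : ℕ) : A) * zv E l * zv E (l + 1) ^ (E + 1))
          + Polynomial.X ^ 2 * Polynomial.C (zv E (l + 1) ^ (E + 2))))
      = Polynomial.X ^ (E * (E + 3)) * (∏ k : Fin (E + 2), Polynomial.X ^ ys E k) *
        (Polynomial.X * (Polynomial.X ^ (l : ℕ) * Polynomial.X ^ (((l : ℕ) + 1) * (l + 1))  * mv (Mh E (zv E)) l.succ *
          (Polynomial.C (((E + 2 : ℕ) : A) * zv E l * zv E (l + 1) ^ (E + 1))
          + Polynomial.X ^ 2 * Polynomial.C (zv E (l + 1) ^ (E + 2))))) := by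
    intro l
    have h5 : (Polynomial.X : Polynomial A) ^ (xs E l.succ) * Polynomial.X ^ (2 * (l : ℕ) + 2 * (l + 1) * (E + 1))
        = Polynomial.X ^ (E * (E + 3)) * (Polynomial.X * (Polynomial.X ^ (l : ℕ) * Polynomial.X ^ (((l : ℕ) + 1) * (l + 1)))) := by
      have h6 : xs E l.succ = (E + 1 - (l : ℕ)) * (E - l) := by simp [xs]
      rw [h6, ← pow_add, expo4 E l (by omega)]
      ring
    generalize (∏ k : Fin (E + 2), Polynomial.X ^ ys E k : Polynomial A) = P at *
    generalize mv (Mh E (zv E)) l.succ = m at *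
    generalize (Polynomial.C (((E + 2 : ℕ) : A) * zv E l * zv E (l + 1) ^ (E + 1))
          + Polynomial.X ^ 2 * Polynomial.C (zv E (l + 1) ^ (E + 2))) = G at *
    calc (Polynomial.X : Polynomial A) ^ (xs E l.succ) * P * m *
          (Polynomial.X ^ (2 * (l : ℕ) + 2 * (l + 1) * (E + 1)) * G)
        = ((Polynomial.X : Polynomial A) ^ (xs E l.succ) * Polynomial.X ^ (2 * (l : ℕ) + 2 * (l + 1) * (E + 1)))
          * (P * m * G) := by ring
      _ = _ := by rw [h5]; ring
  rw [Finset.sum_congr rfl (fun l _ => h4 l), ← Finset.mul_sum, ← Finset.mul_sum] at h3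
  have hx0 : xs E 0 = E * (E + 3) := by simp [xs]
  rw [hx0] at h3
  have hP : (Polynomial.X : Polynomial A) ^ (E * (E + 3)) * (∏ k : Fin (E + 2), Polynomial.X ^ ys E k) ≠ 0 := by
    rw [Finset.prod_pow_eq_pow_sum]
    exact mul_ne_zero (pow_ne_zero _ Polynomial.X_ne_zero) (pow_ne_zero _ Polynomial.X_ne_zero)
  rw [mul_assoc (_ * _) (mv (Mh E (zv E)) 0), ← mul_add] at h3
  have h7 := (mul_eq_zero.mp h3).resolve_left hP
  have h8 := congrArg (Polynomial.eval 0) h7
  simp only [Polynomial.eval_add, Polynomial.eval_mul, Polynomial.eval_X, Polynomial.eval_C, zero_mul,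
    add_zero, Polynomial.eval_zero] at h8
  have h9 : Polynomial.eval 0 (mv (Mh E (zv E)) 0) = mv (M0 E (zv E)) 0 := by
    rw [M0, mv_map]
    rfl
  rw [h9] at h8
  have h10 : mv (M0 E (zv E)) 0 ≠ 0 := by
    have := (lc_zv_algInd E).ne_zero 0
    exact left_ne_zero_of_mul this
  have h11 : ((E + 2 : ℕ) : A) * zv E 0 ^ (E + 1) ≠ 0 := by
    apply mul_ne_zero
    · exact_mod_cast (by omega : E + 2 ≠ 0)
    · exact pow_ne_zero _ (zv_ne E 0)
  exact (mul_ne_zero h10 h11) h8

end Pool.Agent.Work.MP_8f100c_ag
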