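import Mathlib
import Pool.Agent.Work.MP_8f100c_ag.Chain

namespace Pool.Agent.Work.MP_8f100c_ag

open Matrix Polynomial

section
variable {A : Type*} [CommRing A]

theorem Rp_shift (e : ℕ) (y : ℕ → A) (η : A) (l : ℕ) :
    Rp e (fun j => y j + η) l = (Rp e y l).comp (X + C η) := by
  cases l with
  | zero => simp [Rp]; ring
  | succ l => simp [Rp]; ring

theorem coeff_comp_X_add_C (p : Polynomial A) (η : A) (n N : ℕ) (h : p.natDegree < N) :
    (p.comp (X + C η)).coeff n
      = ∑ l ∈ Finset.range N, ((l.choose n : ℕ) : A) * η ^ (l - n) * p.coeff l := by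
  rw [← Polynomial.taylor_apply, Polynomial.taylor_coeff, Polynomial.hasseDeriv_apply,
    Polynomial.sum_over_range' _ _ N h, Polynomial.eval_finsetSum]
  · apply Finset.sum_congr rfl
    intro l _
    rw [Polynomial.eval_monomial]
    ring
  · intro n
    simp

theorem Bm_shift (e : ℕ) (y : ℕ → A) (η : A) :
    Bm e (fun j => y j + η)
      = (Matrix.of fun k l : Fin e => ((((l : ℕ) + 2).choose ((k : ℕ) + 2) : ℕ) : A) * η ^ ((l : ℕ) - k))
        * Bm e y := by
  ext k i
  rw [Matrix.mul_apply, Bm, Rp_shift,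
    coeff_comp_X_add_C _ _ _ (e + 2) (by have := natDegree_Rp_le e y i; omega),
    Finset.sum_range_succ', Finset.sum_range_succ']
  simp only [Nat.choose_zero_succ, Nat.cast_zero, zero_mul, add_zero, zero_add]
  rw [show (Nat.choose 1 ((k : ℕ) + 2)) = 0 from Nat.choose_eq_zero_of_lt (by omega)]
  simp only [Nat.cast_zero, zero_mul, add_zero]
  rw [Finset.sum_range]
  apply Finset.sum_congr rfl
  intro l _
  simp only [Matrix.of_apply, Bm]
  rw [show (l : ℕ) + 1 + 1 = l + 2 from rfl, Nat.add_sub_add_right]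

theorem sg_shift (e : ℕ) (y : ℕ → A) (η : A) (i : Fin (e + 1)) :
    sg e (fun j => y j + η) i = sg e y i := by
  rw [sg, Bm_shift, mv_mul, sg, Matrix.det_of_isUpperTriangular]
  · simp
  · intro a b hab
    simp only [Matrix.of_apply]
    rw [Nat.choose_eq_zero_of_lt (by simpa using hab)]
    simp

theorem mu_shift (e : ℕ) (y : ℕ → A) (η : A) (i : Fin (e + 1)) :
    mu e (fun j => y j + η) i = sg e y i * (Rp e y i).eval η := by
  rw [mu, sg_shift, Rp_shift, Polynomial.eval_comp]
  simp

end

end Pool.Agent.Work.MP_8f100c_ag
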