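import Mathlib
import Pool.Agent.Work.MP_8f100c_ag.Rho
import Pool.Agent.Work.MP_8f100c_ag.Shift

namespace Pool.Agent.Work.MP_8f100c_ag

open Matrix

section
variable {K : Type*} [Field K] [Algebra ℂ K] (E : ℕ) (y : ℕ → K) (a : K)

/-- minors extended to all of `ℕ` -/
noncomputable def sN (j : ℕ) : K := if h : j < E + 3 then sg (E + 2) y ⟨j, h⟩ else 1

noncomputable def bt : ℕ → K
  | 0 => a
  | (m + 1) => sN E y (E + 2 - m) / (bt m) ^ (E + 2)

noncomputable def eta : K :=
  - (rho0 (E + 2) y + (bt E y a (E + 3)) ^ (E + 3)) / rho1 (E + 2) y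

noncomputable def xx : ℕ → K
  | 0 => bt E y a (E + 3)
  | (j + 1) => bt E y a (E + 2 - j) * (y j + eta E y a)

end

section
variable {K : Type*} [Field K] [Algebra ℂ K] (E : ℕ) (y : ℕ → K)

/-- specialization of the polynomial ring -/
noncomputable def sp : MvPolynomial (Fin (E + 3)) ℂ →ₐ[ℂ] K := MvPolynomial.aeval (fun j : Fin (E + 3) => y j)

theorem sp_zv (j : ℕ) (hj : j ≤ E + 2) : sp E y (zv E j) = y j := by
  rw [zv, dif_pos (by omega), sp, MvPolynomial.aeval_X]

theorem sp_mu (i : Fin (E + 3)) : sp E y (mu (E + 2) (zv E) i) = mu (E + 2) y i := by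
  have := mu_map (sp E y : MvPolynomial (Fin (E + 3)) ℂ →+* K) (E + 2) (zv E) i
  simp only [RingHom.coe_coe] at this
  rw [← this]
  exact mu_congr _ _ _ (fun j hj => sp_zv E y j hj) i

theorem sp_sg (i : Fin (E + 3)) : sp E y (sg (E + 2) (zv E) i) = sg (E + 2) y i := by
  have := sg_map (sp E y : MvPolynomial (Fin (E + 3)) ℂ →+* K) (E + 2) (zv E) i
  simp only [RingHom.coe_coe] at this
  rw [← this]
  exact sg_congr _ _ _ (fun j hj => sp_zv E y j hj) i

theorem sp_rho1 : sp E y (rho1 (E + 2) (zv E)) = rho1 (E + 2) y := by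
  have := rho1_map (sp E y : MvPolynomial (Fin (E + 3)) ℂ →+* K) (E + 2) (zv E)
  simp only [RingHom.coe_coe] at this
  rw [← this]
  exact rho1_congr _ _ _ (fun j hj => sp_zv E y j hj)

theorem sp_rho0 : sp E y (rho0 (E + 2) (zv E)) = rho0 (E + 2) y := by
  have := rho0_map (sp E y : MvPolynomial (Fin (E + 3)) ℂ →+* K) (E + 2) (zv E)
  simp only [RingHom.coe_coe] at this
  rw [← this]
  exact rho0_congr _ _ _ (fun j hj => sp_zv E y j hj)

theorem sp_mem (p : MvPolynomial (Fin (E + 3)) ℂ) :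
    sp E y p ∈ acl (Set.range (fun j : Fin (E + 3) => y j)) := by
  apply mem_acl_of_mem_adjoin
  rw [Algebra.adjoin_range_eq_range_aeval]
  exact ⟨p, rfl⟩

variable {y}

theorem sp_inj (hy : AlgebraicIndependent ℂ (fun j : Fin (E + 3) => y j)) :
    Function.Injective (sp E y) := hy

theorem mu_algInd (hy : AlgebraicIndependent ℂ (fun j : Fin (E + 3) => y j)) :
    AlgebraicIndependent ℂ (mu (E + 2) y) := by
  have h := (mu_zv_algInd E).map' (sp_inj E hy)
  have h2 : (sp E y) ∘ (mu (E + 2) (zv E)) = mu (E + 2) y := by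
    funext i
    exact sp_mu E y i
  rwa [h2] at h

theorem sg_ne (hy : AlgebraicIndependent ℂ (fun j : Fin (E + 3) => y j)) (i : Fin (E + 3)) :
    sg (E + 2) y i ≠ 0 := by
  have := (mu_algInd E hy).ne_zero i
  exact left_ne_zero_of_mul this

theorem rho1_ne (hy : AlgebraicIndependent ℂ (fun j : Fin (E + 3) => y j)) :
    rho1 (E + 2) y ≠ 0 := by
  rw [← sp_rho1]
  intro h
  exact rho1_zv_ne E ((map_eq_zero_iff _ (sp_inj E hy)).mp h)

theorem sN_ne (hy : AlgebraicIndependent ℂ (fun j : Fin (E + 3) => y j)) (j : ℕ) :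
    sN E y j ≠ 0 := by
  rw [sN]
  split_ifs
  · exact sg_ne E hy _
  · exact one_ne_zero

theorem sN_mem (j : ℕ) : sN E y j ∈ acl (Set.range (fun j : Fin (E + 3) => y j)) := by
  rw [sN]
  split_ifs with h
  · rw [← sp_sg]
    exact sp_mem E y _
  · exact one_mem _

variable {a : K}

theorem a_notMem (h : AlgebraicIndependent ℂ (fun o : Option (Fin (E + 3)) => o.elim a (fun j => y j))) :
    a ∉ acl (Set.range (fun j : Fin (E + 3) => y j)) := by
  intro ha
  have hy : AlgebraicIndependent ℂ (fun j : Fin (E + 3) => y j) := by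
    have := h.comp (fun j : Fin (E + 3) => some j) (Option.some_injective _)
    exact this
  have h1 := (hy.option_iff_transcendental a).mp h
  exact h1 (isAlgebraic_of_mem_acl ha)

theorem bt_ne (hy : AlgebraicIndependent ℂ (fun j : Fin (E + 3) => y j)) (ha : a ≠ 0) (m : ℕ) :
    bt E y a m ≠ 0 := by
  induction m with
  | zero => exact ha
  | succ m ih => exact div_ne_zero (sN_ne E hy _) (pow_ne_zero _ ih)

theorem bt_rel (hy : AlgebraicIndependent ℂ (fun j : Fin (E + 3) => y j)) (ha : a ≠ 0) (m : ℕ) :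
    bt E y a (m + 1) * (bt E y a m) ^ (E + 2) = sN E y (E + 2 - m) := by
  rw [bt, div_mul_cancel₀]
  exact pow_ne_zero _ (bt_ne E hy ha m)

theorem bt_notMem (hy : AlgebraicIndependent ℂ (fun j : Fin (E + 3) => y j)) (ha : a ≠ 0)
    (ha2 : a ∉ acl (Set.range (fun j : Fin (E + 3) => y j))) (m : ℕ) :
    bt E y a m ∉ acl (Set.range (fun j : Fin (E + 3) => y j)) := by
  induction m with
  | zero => exact ha2
  | succ m ih =>
    intro h
    apply ih
    apply mem_acl_of_pow (n := E + 2) (by omega)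
    have h1 := bt_rel E hy ha m
    have h2 : (bt E y a m) ^ (E + 2) = sN E y (E + 2 - m) / bt E y a (m + 1) := by
      rw [← h1, mul_comm, mul_div_assoc, div_self (bt_ne E hy ha (m + 1)), mul_one]
    rw [h2]
    exact div_mem (sN_mem E _) h

theorem eta_notMem (hy : AlgebraicIndependent ℂ (fun j : Fin (E + 3) => y j)) (ha : a ≠ 0)
    (ha2 : a ∉ acl (Set.range (fun j : Fin (E + 3) => y j))) :
    eta E y a ∉ acl (Set.range (fun j : Fin (E + 3) => y j)) := by
  intro h
  apply bt_notMem E hy ha ha2 (E + 3)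
  apply mem_acl_of_pow (n := E + 3) (by omega)
  have h1 : (bt E y a (E + 3)) ^ (E + 3) = - (rho1 (E + 2) y * eta E y a) - rho0 (E + 2) y := by
    rw [eta, mul_div_cancel₀ _ (rho1_ne E hy)]
    ring
  rw [h1, ← sp_rho1, ← sp_rho0]
  exact sub_mem (neg_mem (mul_mem (sp_mem E y _) h)) (sp_mem E y _)

/-- translation by a transcendental keeps independence -/
theorem shift_algInd (hy : AlgebraicIndependent ℂ (fun j : Fin (E + 3) => y j)) {η : K}
    (hη : η ∉ acl (Set.range (fun j : Fin (E + 3) => y j))) :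
    AlgebraicIndependent ℂ (fun j : Fin (E + 3) => y j + η) := by
  have htr : Transcendental (Algebra.adjoin ℂ (Set.range (fun j : Fin (E + 3) => y j))) η := by
    intro h
    exact hη (mem_acl_of_isAlgebraic h)
  have h1 := (hy.option_iff_transcendental η).mpr htr
  have h2 : AlgebraicIndependent ℂ (fun j : Fin (E + 3) =>
      (MvPolynomial.X (some j) + MvPolynomial.X none : MvPolynomial (Option (Fin (E + 3))) ℂ)) := by
    let ψ : MvPolynomial (Option (Fin (E + 3))) ℂ →ₐ[ℂ] MvPolynomial (Fin (E + 3)) ℂ :=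
      MvPolynomial.aeval (fun o : Option (Fin (E + 3)) => o.elim 0 MvPolynomial.X)
    apply AlgebraicIndependent.of_comp ψ
    have h3 : ψ ∘ (fun j : Fin (E + 3) =>
      (MvPolynomial.X (some j) + MvPolynomial.X none : MvPolynomial (Option (Fin (E + 3))) ℂ))
        = MvPolynomial.X := by
      funext j
      simp [ψ]
    rw [h3]
    exact MvPolynomial.algebraicIndependent_X _ _
  have h3 := h2.map' h1
  have h4 : (MvPolynomial.aeval (fun o : Option (Fin (E + 3)) => o.elim η (fun j => y j))) ∘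
      (fun j : Fin (E + 3) =>
      (MvPolynomial.X (some j) + MvPolynomial.X none : MvPolynomial (Option (Fin (E + 3))) ℂ))
      = fun j : Fin (E + 3) => y j + η := by
    funext j
    simp
  rwa [h4] at h3

/-- the point satisfies the products relation -/
theorem xx_mul (hy : AlgebraicIndependent ℂ (fun j : Fin (E + 3) => y j)) (ha : a ≠ 0)
    (i : Fin (E + 3)) :
    xx E y a i * (xx E y a (i + 1)) ^ (E + 2)
      = sg (E + 2) y i * (Rp (E + 2) y i).eval (eta E y a) := by
  obtain ⟨i, hi⟩ := i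
  cases i with
  | zero =>
    have h1 := bt_rel E hy ha (E + 2)
    rw [Nat.sub_self, sN, dif_pos (by omega)] at h1
    simp only [xx, Rp, Polynomial.eval_pow, Polynomial.eval_add, Polynomial.eval_X,
      Polynomial.eval_C, Nat.sub_zero]
    rw [← h1, mul_pow]
    ring
  | succ l =>
    have h1 := bt_rel E hy ha (E + 2 - (l + 1))
    have h2 : E + 2 - (l + 1) + 1 = E + 2 - l := by omega
    have h3 : E + 2 - (E + 2 - (l + 1)) = l + 1 := by omega
    rw [h2, h3, sN, dif_pos (by omega)] at h1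
    simp only [xx, Rp, Polynomial.eval_pow, Polynomial.eval_add, Polynomial.eval_X,
      Polynomial.eval_C, Polynomial.eval_mul]
    rw [← h1, mul_pow]
    ring

theorem xx_eq (hy : AlgebraicIndependent ℂ (fun j : Fin (E + 3) => y j)) (ha : a ≠ 0) :
    (xx E y a 0) ^ (E + 3) + ∑ i : Fin (E + 3), xx E y a i * (xx E y a (i + 1)) ^ (E + 2) = 0 := by
  rw [Finset.sum_congr rfl (fun i _ => xx_mul E hy ha i)]
  have h1 := congrArg (Polynomial.eval (eta E y a)) (sum_sg_Rp (E + 2) y)
  rw [Polynomial.eval_finsetSum] at h1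
  simp only [Polynomial.eval_mul, Polynomial.eval_C, Polynomial.eval_add, Polynomial.eval_X] at h1
  rw [h1]
  change (bt E y a (E + 3)) ^ (E + 3) + (rho0 (E + 2) y + rho1 (E + 2) y * eta E y a) = 0
  rw [eta, mul_div_cancel₀ _ (rho1_ne E hy)]
  ring

theorem xx_mul_mu (hy : AlgebraicIndependent ℂ (fun j : Fin (E + 3) => y j)) (ha : a ≠ 0)
    (i : Fin (E + 3)) :
    xx E y a i * (xx E y a (i + 1)) ^ (E + 2) = mu (E + 2) (fun j => y j + eta E y a) i := by
  rw [mu_shift]
  exact xx_mul E hy ha i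

theorem xx_zero_mem (hy : AlgebraicIndependent ℂ (fun j : Fin (E + 3) => y j)) (ha : a ≠ 0) :
    xx E y a 0 ∈ acl (Set.range (fun j : Fin (E + 3) => xx E y a (j + 1))) := by
  set s := Set.range (fun j : Fin (E + 3) => xx E y a (j + 1)) with hs
  have hm : ∀ j : Fin (E + 3), xx E y a (j + 1) ∈ Algebra.adjoin ℂ s := fun j =>
    Algebra.subset_adjoin ⟨j, rfl⟩
  have h0 := xx_eq E hy ha
  rw [Fin.sum_univ_succ] at h0
  have hb : (xx E y a (0 + 1)) ^ (E + 2) ∈ Algebra.adjoin ℂ s := pow_mem (hm 0) _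
  have hc : ∑ i : Fin (E + 2), xx E y a (i.succ : Fin (E + 3)) *
      (xx E y a ((i.succ : Fin (E + 3)) + 1)) ^ (E + 2) ∈ Algebra.adjoin ℂ s := by
    apply sum_mem
    intro i _
    apply mul_mem
    · have := hm i.castSucc
      simpa using this
    · exact pow_mem (hm i.succ) _
  apply mem_acl_of_isAlgebraic
  refine ⟨Polynomial.X ^ (E + 3) + Polynomial.C ⟨_, hb⟩ * Polynomial.X + Polynomial.C ⟨_, hc⟩, ?_, ?_⟩
  · intro h
    have := congrArg (fun p => Polynomial.coeff p (E + 3)) h
    simp [Polynomial.coeff_X_pow, Polynomial.coeff_X, Polynomial.coeff_C] at this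
  · simp only [map_add, map_mul, map_pow, Polynomial.aeval_X, Polynomial.aeval_C]
    change (xx E y a 0) ^ (E + 3) + (xx E y a (0 + 1)) ^ (E + 2) * xx E y a 0 + _ = 0
    rw [← h0]
    simp only [Fin.val_zero]
    change _ + _ + ∑ i : Fin (E + 2), xx E y a (i.succ : Fin (E + 3)) *
      (xx E y a ((i.succ : Fin (E + 3)) + 1)) ^ (E + 2) = _
    ring

theorem xx_algInd (h : AlgebraicIndependent ℂ (fun o : Option (Fin (E + 3)) => o.elim a (fun j => y j))) :
    AlgebraicIndependent ℂ (fun j : Fin (E + 3) => xx E y a (j + 1)) := by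
  have hy : AlgebraicIndependent ℂ (fun j : Fin (E + 3) => y j) :=
    h.comp (fun j : Fin (E + 3) => some j) (Option.some_injective _)
  have ha : a ≠ 0 := h.ne_zero none
  have ha2 := a_notMem E h
  have hη := eta_notMem E hy ha ha2
  have h1 := shift_algInd E hy hη
  have h2 : AlgebraicIndependent ℂ (mu (E + 2) (fun j => y j + eta E y a)) := mu_algInd E h1
  have hm : ∀ j : Fin (E + 3), xx E y a (j + 1) ∈
      acl (Set.range (fun j : Fin (E + 3) => xx E y a (j + 1))) := fun j => subset_acl ⟨j, rfl⟩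
  refine algInd_of_acl _ _ h2 (fun i => ?_)
  rw [← xx_mul_mu E hy ha i]
  refine mul_mem ?_ (pow_mem (hm i) _)
  refine Fin.cases ?_ (fun l => ?_) i
  · exact xx_zero_mem E hy ha
  · have := hm l.castSucc
    simpa using this

end

end Pool.Agent.Work.MP_8f100c_ag
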