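import Mathlib
import Pool.Agent.Work.MP_8f100c_ag.Dense
import Pool.Agent.Work.MP_8f100c_ag.Param

namespace Pool.Agent.Work.MP_8f100c_ag

open MvPolynomial

/-- the chain polynomial of degree `E+3` in `E+4` variables -/
noncomputable def chainPoly (E : ℕ) : MvPolynomial (Fin (E + 3 + 1)) ℂ :=
  X 0 ^ (E + 3) + ∑ i : Fin (E + 3), X i.castSucc * X i.succ ^ (E + 2)

theorem chainPoly_isHomogeneous (E : ℕ) : (chainPoly E).IsHomogeneous (E + 3) := by
  apply IsHomogeneous.add
  · exact isHomogeneous_X_pow _ _
  · apply IsHomogeneous.sum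
    intro i _
    have := (isHomogeneous_X ℂ i.castSucc).mul (isHomogeneous_X_pow (R := ℂ) i.succ (E + 2))
    rwa [show 1 + (E + 2) = E + 3 by omega] at this

/-- constant part -/
noncomputable def chainG (E : ℕ) : MvPolynomial (Fin (E + 3)) ℂ :=
  ∑ i : Fin (E + 2), X i.castSucc * X i.succ ^ (E + 2)

theorem finSuccEquiv_chain (E : ℕ) : finSuccEquiv ℂ (E + 3) (chainPoly E)
    = Polynomial.X ^ (E + 3) + (Polynomial.C (X 0 ^ (E + 2)) * Polynomial.X + Polynomial.C (chainG E)) := by
  rw [chainPoly, Fin.sum_univ_succ, chainG]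
  simp only [map_add, map_mul, map_pow, map_sum, finSuccEquiv_X_zero, finSuccEquiv_X_succ,
    Fin.castSucc_zero, Fin.castSucc_succ]
  ring

theorem chain_monic (E : ℕ) : (finSuccEquiv ℂ (E + 3) (chainPoly E)).Monic := by
  rw [finSuccEquiv_chain]
  apply Polynomial.monic_X_pow_add
  refine (Polynomial.degree_linear_le).trans_lt ?_
  exact_mod_cast (by omega : 1 < E + 3)

theorem chain_irreducible (E : ℕ) : Irreducible (finSuccEquiv ℂ (E + 3) (chainPoly E)) := by
  let φ : MvPolynomial (Fin (E + 3)) ℂ →+* Polynomial ℂ :=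
    (aeval (fun j : Fin (E + 3) => if (j : ℕ) = 1 then (Polynomial.X : Polynomial ℂ) else
      if (j : ℕ) = 2 then 1 else 0) : MvPolynomial (Fin (E + 3)) ℂ →ₐ[ℂ] Polynomial ℂ).toRingHom
  have hφ : ∀ j : Fin (E + 3), φ (X j) = if (j : ℕ) = 1 then (Polynomial.X : Polynomial ℂ) else
      if (j : ℕ) = 2 then 1 else 0 := by
    intro j
    simp [φ]
  apply (chain_monic E).irreducible_of_irreducible_map φ
  have h : (finSuccEquiv ℂ (E + 3) (chainPoly E)).map φ
      = Polynomial.X ^ (E + 3) + Polynomial.C Polynomial.X := by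
    rw [finSuccEquiv_chain]
    simp only [Polynomial.map_add, Polynomial.map_mul, Polynomial.map_pow, Polynomial.map_X,
      Polynomial.map_C, map_pow]
    have h0 : φ (X 0) = 0 := by
      rw [hφ]
      simp
    have hG : φ (chainG E) = Polynomial.X := by
      rw [chainG, map_sum, Finset.sum_eq_single (⟨1, by omega⟩ : Fin (E + 2))]
      · have e1 : (((⟨1, by omega⟩ : Fin (E + 2)).castSucc : Fin (E + 3)) : ℕ) = 1 := rfl
        have e2 : (((⟨1, by omega⟩ : Fin (E + 2)).succ : Fin (E + 3)) : ℕ) = 2 := rfl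
        rw [map_mul, map_pow, hφ, hφ, if_pos e1, if_neg (by rw [e2]; omega), if_pos e2, one_pow, mul_one]
      · intro b _ hb
        have hb' : (b : ℕ) ≠ 1 := fun h => hb (Fin.ext h)
        simp only [map_mul, map_pow, hφ, Fin.val_castSucc, Fin.val_succ]
        rw [if_neg hb']
        by_cases h2 : (b : ℕ) = 2
        · rw [if_pos h2, if_neg (by omega), if_neg (by omega)]
          simp
        · rw [if_neg h2]
          simp
      · intro h
        exact absurd (Finset.mem_univ _) h
    rw [h0, hG]
    simp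
  rw [h]
  exact irr_aux (E + 3) (by omega)

theorem chain_unirational (E : ℕ) : IsUnirationalHyp (chainPoly E) := by
  let B := MvPolynomial (Fin (E + 4)) ℂ
  let K := FractionRing B
  let u : Fin (E + 4) → K := fun i => algebraMap B K (X i)
  have hu : AlgebraicIndependent ℂ u := by
    have := (MvPolynomial.algebraicIndependent_X (Fin (E + 4)) ℂ).map'
      (f := IsScalarTower.toAlgHom ℂ B K) (IsFractionRing.injective B K)
    exact this
  let a : K := u 0
  let y : ℕ → K := fun j => if h : j < E + 3 then u (Fin.succ ⟨j, h⟩) else 1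
  have hy : ∀ j : Fin (E + 3), y j = u j.succ := by
    intro j
    simp [y]
    rfl
  have h : AlgebraicIndependent ℂ (fun o : Option (Fin (E + 3)) => o.elim a (fun j => y j)) := by
    have h1 := hu.comp (fun o : Option (Fin (E + 3)) => (_root_.finSuccEquiv (E + 3)).symm o)
      ((_root_.finSuccEquiv (E + 3)).symm.injective)
    have h2 : u ∘ (fun o : Option (Fin (E + 3)) => (_root_.finSuccEquiv (E + 3)).symm o)
        = (fun o : Option (Fin (E + 3)) => o.elim a (fun j => y j)) := by
      funext o
      cases o with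
      | none => simp [a]
      | some j => simp [hy]
    rwa [h2] at h1
  have hy' : AlgebraicIndependent ℂ (fun j : Fin (E + 3) => y j) :=
    h.comp (fun j : Fin (E + 3) => some j) (Option.some_injective _)
  have ha : a ≠ 0 := h.ne_zero none
  let x : Fin (E + 3 + 1) → K := fun i => xx E y a i
  have hx : AlgebraicIndependent ℂ (fun j : Fin (E + 3) => x j.succ) := xx_algInd E h
  have hF : aeval x (chainPoly E) = 0 := by
    have := xx_eq E hy' ha
    rw [chainPoly, map_add, map_sum]
    simp only [map_mul, map_pow, aeval_X]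
    exact this
  refine unirational_of_field (M := E + 4) (K := K) (chainPoly_isHomogeneous E) x ?_ hF ?_
  · exact ⟨(0 : Fin (E + 3)).succ, hx.ne_zero 0⟩
  · intro D H _ hH v hv
    have := dvd_of_aeval_eq_zero x hx (chainPoly E) H (chain_monic E) (chain_irreducible E) hF hH
    obtain ⟨c, hc⟩ := this
    rw [hc, map_mul, hv, zero_mul]

end Pool.Agent.Work.MP_8f100c_ag
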