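import Mathlib
import Pool.Agent.Work.MP_8f100c_ag.ChainHyp

namespace Pool.Agent.Work.MP_8f100c_ag

open MvPolynomial

theorem eval_pderiv_chain (E : ℕ) (x : Fin (E + 3 + 1) → ℂ) (v : ℕ → ℂ)
    (hv : ∀ i : Fin (E + 3 + 1), v i = x i) (hv2 : v (E + 4) = 0) (j : Fin (E + 3 + 1)) :
    eval x (pderiv j (chainPoly E)) = (if (j : ℕ) = 0 then ((E : ℂ) + 3) * v 0 ^ (E + 2)
      else ((E : ℂ) + 2) * v (j - 1) * v j ^ (E + 1)) + v (j + 1) ^ (E + 2) := by
  have h1 : eval x (pderiv j (chainPoly E)) = (if (j : ℕ) = 0 then ((E : ℂ) + 3) * v 0 ^ (E + 2) else 0)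
      + (∑ i : Fin (E + 3), (if (i : ℕ) = j then v (i + 1) ^ (E + 2) else 0)
      + ∑ i : Fin (E + 3), (if (i : ℕ) + 1 = j then ((E : ℂ) + 2) * v i * v (i + 1) ^ (E + 1) else 0)) := by
    rw [chainPoly, map_add, map_add, map_sum, map_sum, ← Finset.sum_add_distrib]
    congr 1
    · rw [Derivation.leibniz_pow, pderiv_X]
      by_cases hj : (j : ℕ) = 0
      · have : j = 0 := Fin.ext hj
        subst this
        have h0 := hv 0
        simp only [Fin.val_zero] at h0
        simp [h0]
      · have : (0 : Fin (E + 3 + 1)) ≠ j := fun h => hj (by rw [← h]; rfl)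
        rw [if_neg hj, Pi.single_eq_of_ne this]
        simp
    · apply Finset.sum_congr rfl
      intro i _
      rw [Derivation.leibniz, Derivation.leibniz_pow, pderiv_X, pderiv_X]
      have h2 := hv i.castSucc
      have h3 := hv i.succ
      simp only [Fin.val_castSucc, Fin.val_succ] at h2 h3
      rw [h2, h3]
      have h4 : (i.castSucc = j) ↔ ((i : ℕ) = j) := by
        rw [Fin.ext_iff]
        rfl
      have h5 : (i.succ = j) ↔ ((i : ℕ) + 1 = j) := by
        rw [Fin.ext_iff]
        rfl
      simp only [Pi.single_apply, h4, h5, smul_eq_mul, map_add, map_mul, map_pow, eval_X,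
        nsmul_eq_mul, map_natCast]
      split_ifs <;> simp <;> ring
  rw [h1]
  have h6 : ∑ i : Fin (E + 3), (if (i : ℕ) = j then v (i + 1) ^ (E + 2) else 0) = v (j + 1) ^ (E + 2) := by
    rw [← Finset.sum_range (fun i => if i = (j : ℕ) then v (i + 1) ^ (E + 2) else 0)]
    rw [Finset.sum_ite_eq']
    split_ifs with h
    · rfl
    · have : (j : ℕ) = E + 3 := by
        simp at h
        omega
      rw [this, hv2]
      simp
  have h7 : ∑ i : Fin (E + 3), (if (i : ℕ) + 1 = j then ((E : ℂ) + 2) * v i * v (i + 1) ^ (E + 1) else 0)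
      = if (j : ℕ) = 0 then 0 else ((E : ℂ) + 2) * v (j - 1) * v j ^ (E + 1) := by
    rw [← Finset.sum_range (fun i => if i + 1 = (j : ℕ) then ((E : ℂ) + 2) * v i * v (i + 1) ^ (E + 1) else 0)]
    split_ifs with h
    · apply Finset.sum_eq_zero
      intro i _
      rw [if_neg (by omega)]
    · rw [Finset.sum_eq_single ((j : ℕ) - 1)]
      · have : (j : ℕ) - 1 + 1 = j := by omega
        rw [if_pos this, this]
      · intro b _ hb
        rw [if_neg (by omega)]
      · intro h'
        simp at h'
        omega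
  rw [h6, h7]
  split_ifs <;> ring

theorem chain_smooth (E : ℕ) : IsSmoothHyp (chainPoly E) := by
  intro x hx _
  by_contra hcon
  push Not at hcon
  apply hx
  set v : ℕ → ℂ := fun j => if h : j < E + 3 + 1 then x ⟨j, h⟩ else 0 with hvdef
  have hv : ∀ i : Fin (E + 3 + 1), v i = x i := by
    intro i
    exact dif_pos i.isLt
  have hv2 : v (E + 4) = 0 := by
    simp [hvdef]
  have heq : ∀ j : ℕ, j < E + 4 → (if j = 0 then ((E : ℂ) + 3) * v 0 ^ (E + 2)
      else ((E : ℂ) + 2) * v (j - 1) * v j ^ (E + 1)) + v (j + 1) ^ (E + 2) = 0 := by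
    intro j hj
    have := eval_pderiv_chain E x v hv hv2 ⟨j, hj⟩
    rw [hcon] at this
    exact this.symm
  have hE2 : ((E : ℂ) + 2) ≠ 0 := by
    exact_mod_cast (by omega : E + 2 ≠ 0)
  have hE3 : ((E : ℂ) + 3) ≠ 0 := by
    exact_mod_cast (by omega : E + 3 ≠ 0)
  have hstep : ∀ j : ℕ, j < E + 4 → v (j + 1) = 0 → v j = 0 := by
    intro j hj h0
    have h1 := heq j hj
    rw [h0, zero_pow (by omega), add_zero] at h1
    split_ifs at h1 with hj0
    · rw [hj0]
      exact pow_eq_zero_iff (by omega) |>.mp ((mul_eq_zero.mp h1).resolve_left hE3)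
    · rcases mul_eq_zero.mp h1 with h2 | h2
      · have h3 := (mul_eq_zero.mp h2).resolve_left hE2
        have h4 := heq (j - 1) (by omega)
        have h5 : j - 1 + 1 = j := by omega
        rw [h3, h5] at h4
        split_ifs at h4 with hj1
        · rw [hj1] at h3
          rw [h3, zero_pow (by omega), mul_zero, zero_add] at h4
          exact pow_eq_zero_iff (by omega) |>.mp h4
        · rw [zero_pow (by omega), mul_zero, zero_add] at h4
          exact pow_eq_zero_iff (by omega) |>.mp h4
      · exact pow_eq_zero_iff (by omega) |>.mp h2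
  have hall : ∀ k : ℕ, k ≤ E + 4 → v (E + 4 - k) = 0 := by
    intro k
    induction k with
    | zero => intro _; exact hv2
    | succ k ih =>
      intro hk
      have h1 := ih (by omega)
      apply hstep
      · omega
      · rwa [show E + 4 - (k + 1) + 1 = E + 4 - k by omega]
  funext i
  rw [← hv i, Pi.zero_apply]
  have := hall (E + 4 - i) (by omega)
  rwa [show E + 4 - (E + 4 - (i : ℕ)) = i by omega] at this

end Pool.Agent.Work.MP_8f100c_ag
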