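import Mathlib
import Pool.Agent.Work.MP_8f100c_ag.Uni
import Pool.Agent.Work.MP_8f100c_ag.Smooth
import Pool.Agent.Work.MP_8f100c_ag.Lower2

namespace Pool.Agent.Work.MP_8f100c_ag

open MvPolynomial

theorem small_one : ∃ F : MvPolynomial (Fin (1 + 1)) ℂ, F ≠ 0 ∧ F.IsHomogeneous 1 ∧
    IsSmoothHyp F ∧ IsUnirationalHyp F := by
  refine ⟨X 0, X_ne_zero 0, isHomogeneous_X _ _, ?_, ?_⟩
  · intro x _ _
    refine ⟨0, ?_⟩
    simp
  · let c : Fin (1 + 1) → ℂ := ![0, 1]
    have hgA : ∀ H : MvPolynomial (Fin (1 + 1)) ℂ,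
        aeval (fun i => (C (c i) : MvPolynomial (Fin 0) ℂ)) H = C (eval c H) := by
      intro H
      have h1 : (fun i => (C (c i) : MvPolynomial (Fin 0) ℂ))
          = (algebraMap ℂ (MvPolynomial (Fin 0) ℂ)) ∘ c := rfl
      rw [h1, aeval_algebraMap_apply, aeval_eq_eval]
      rfl
    apply unirational_of_poly (M := 0) (isHomogeneous_X ℂ 0) (fun i => C (c i))
    · refine ⟨1, ?_⟩
      simp [c]
    · simp [c]
    · intro D H hH hz x hx
      rw [hgA] at hz
      have h0 : eval c H = 0 := C_injective _ _ (by rw [hz, map_zero])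
      rw [eval_X] at hx
      have h2 : x = fun i => x 1 * c i := by
        funext i
        fin_cases i
        · simp [c, hx]
        · simp [c]
      rw [h2, eval_mul_of_isHomogeneous hH, h0, mul_zero]

theorem small_two : ∃ F : MvPolynomial (Fin (2 + 1)) ℂ, F ≠ 0 ∧ F.IsHomogeneous 2 ∧
    IsSmoothHyp F ∧ IsUnirationalHyp F := by
  have hF : (X 0 * X 2 - X 1 ^ 2 : MvPolynomial (Fin (2 + 1)) ℂ).IsHomogeneous 2 :=
    ((isHomogeneous_X _ _).mul (isHomogeneous_X _ _)).sub (isHomogeneous_X_pow _ _)
  refine ⟨X 0 * X 2 - X 1 ^ 2, ?_, hF, ?_, ?_⟩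
  · intro h
    have := congrArg (eval (![1, 0, 1] : Fin (2 + 1) → ℂ)) h
    simp at this
  · intro x hx _
    by_contra hcon
    push Not at hcon
    apply hx
    have h0 := hcon 0
    have h1 := hcon 1
    have h2 := hcon 2
    simp [Derivation.leibniz_pow, pderiv_X, Pi.single_apply] at h0 h1 h2
    funext i
    fin_cases i
    · simpa using h2
    · simpa using h1
    · simpa using h0
  · let p : Fin (2 + 1) → MvPolynomial (Fin 2) ℂ := ![X 0 ^ 2, X 0 * X 1, X 1 ^ 2]
    apply unirational_of_poly (M := 2) hF p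
    · refine ⟨0, ?_⟩
      simp [p]
    · simp [p]
      ring
    · intro D H hH hz x hx
      have h1 : ∀ s t : ℂ, eval (![s ^ 2, s * t, t ^ 2] : Fin (2 + 1) → ℂ) H = 0 := by
        intro s t
        have h2 := congrArg (eval (![s, t] : Fin 2 → ℂ)) hz
        rw [map_zero, eval_aeval_eq] at h2
        have h3 : (fun i => eval (![s, t] : Fin 2 → ℂ) (p i)) = ![s ^ 2, s * t, t ^ 2] := by
          funext i
          fin_cases i <;> simp [p]
        rwa [h3] at h2
      have hx' : x 0 * x 2 = x 1 ^ 2 := by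
        simp at hx
        linear_combination hx
      by_cases hx0 : x 0 = 0
      · obtain ⟨t, ht⟩ := IsAlgClosed.exists_pow_nat_eq (x 2) (n := 2) (by norm_num)
        have hx1 : x 1 = 0 := by
          rw [hx0, zero_mul] at hx'
          exact pow_eq_zero_iff (by norm_num) |>.mp hx'.symm
        have h3 : x = ![(0 : ℂ) ^ 2, 0 * t, t ^ 2] := by
          funext i
          fin_cases i
          · simp [hx0]
          · simp [hx1]
          · simp [ht]
        rw [h3]
        exact h1 0 t
      · obtain ⟨s, hs⟩ := IsAlgClosed.exists_pow_nat_eq (x 0) (n := 2) (by norm_num)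
        have hs0 : s ≠ 0 := by
          rintro rfl
          exact hx0 (by rw [← hs]; simp)
        have h3 : x = ![s ^ 2, s * (x 1 / s), (x 1 / s) ^ 2] := by
          funext i
          fin_cases i
          · simp [hs]
          · simp
            field_simp
          · simp
            field_simp
            rw [hs]
            linear_combination hx'
        rw [h3]
        exact h1 _ _

theorem exists_of_ge_three (E : ℕ) : ∃ F : MvPolynomial (Fin ((E + 3) + 1)) ℂ, F ≠ 0 ∧
    F.IsHomogeneous (E + 3) ∧ IsSmoothHyp F ∧ IsUnirationalHyp F := by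
  refine ⟨chainPoly E, ?_, chainPoly_isHomogeneous E, chain_smooth E, chain_unirational E⟩
  intro h
  have := (chain_monic E).ne_zero
  rw [h, map_zero] at this
  exact this rfl

theorem main (d : ℕ) (hd : 1 ≤ d) :
    IsLeast {n : ℕ | ∃ F : MvPolynomial (Fin (n + 1)) ℂ, F ≠ 0 ∧ F.IsHomogeneous d ∧
      IsSmoothHyp F ∧ IsUnirationalHyp F} d := by
  constructor
  · match d, hd with
    | 1, _ => exact small_one
    | 2, _ => exact small_two
    | (E + 3), _ => exact exists_of_ge_three E
  · rintro n ⟨F, hF0, hF, hs, hu⟩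
    exact lower_bound hd F hF hF0 hs hu

end Pool.Agent.Work.MP_8f100c_ag
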